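import Pool.Agent.H45.PS.BLKP
import Pool.Agent.H45.NF.COVN

/-! Small norms with a power saving: blocks and intervals. -/

set_option autoImplicit false

namespace Pool.Agent.H45.PS

open Polynomial Pool.Agent.Q276.PL Pool.Agent.H45.PF Pool.Agent.H45.NF Filter Topology

/-- a block of the values of a polynomial -/
theorem blockP (k B : ℕ) (hk : Odd k) : ∃ c : ℝ, 0 < c ∧ c ≤ 1 ∧ ∀ σ : ℝ, 1 ≤ σ →
    ∃ N₀ : ℕ, ∀ N ≥ N₀, ∀ f : ℤ[X], Dom k B N f → ∀ H : ℕ,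
      (N : ℝ) ^ (1 / (256 * σ ^ 2)) ≤ H → (H : ℝ) ≤ N / (16 * k) →
      ((BadZ f N H ((N : ℝ) ^ (c / σ ^ 2)) ((N : ℝ) ^ σ)).ncard : ℝ) ≤
        2 * H * (N : ℝ) ^ (-(c / σ ^ 2)) := by
  have hk1 : 1 ≤ k := hk.pos
  have hk1' : (1 : ℝ) ≤ k := by exact_mod_cast hk1
  obtain ⟨ε, hε⟩ : ∃ ε : ℝ, ε = 1 / (2 * ((B : ℝ) + k)) := ⟨_, rfl⟩
  have hAk : (1 : ℝ) ≤ (B : ℝ) + k := by
    have : (0 : ℝ) ≤ B := Nat.cast_nonneg B
    linarith
  have hε0 : 0 < ε := by rw [hε]; positivity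
  have hε1 : ε ≤ 1 := by
    rw [hε, div_le_one (by positivity)]
    linarith
  obtain ⟨c₀, hc0, hc1, hblk⟩ := blkp k ε hε0 hε1
  refine ⟨c₀ / 8, by positivity, by linarith, fun σ hσ => ?_⟩
  obtain ⟨D₁, hD₁1, hD₁⟩ := hblk (2 * σ) (by linarith)
  have hσ2 : 0 < σ ^ 2 := by positivity
  obtain ⟨E, hE⟩ : ∃ E : ℝ, E = 8 * ((k : ℝ) + 1) ^ 2 * 2 ^ k := ⟨_, rfl⟩
  have hE0 : 0 < E := by rw [hE]; positivity
  obtain ⟨N₀, hN₀⟩ := Filter.eventually_atTop.1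
    ((tendsto_natCast_atTop_atTop (R := ℝ)).eventually (eventually_ge_atTop (2 * D₁ + 4 + E ^ 2)))
  refine ⟨N₀, fun N hN f hf H hH1 hH2 => ?_⟩
  have h1 := hN₀ N hN
  have hE2 : 0 ≤ E ^ 2 := sq_nonneg E
  have hN4 : (4 : ℝ) ≤ N := by linarith
  have hN1 : (1 : ℝ) ≤ N := by linarith
  have hN0 : (0 : ℝ) < N := by linarith
  have hlc : (1 : ℝ) ≤ f.leadingCoeff := by exact_mod_cast hf.one_le
  obtain ⟨D, hD⟩ : ∃ D : ℝ, D = 3 / 4 * (f.leadingCoeff * (N : ℝ) ^ k) := ⟨_, rfl⟩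
  have hNk : (N : ℝ) ≤ (N : ℝ) ^ k := le_self_pow₀ hN1 (by omega)
  have hDN : 3 / 4 * (N : ℝ) ≤ D := by
    rw [hD]
    have h5 : (N : ℝ) ^ k ≤ f.leadingCoeff * (N : ℝ) ^ k := le_mul_of_one_le_left (by positivity) hlc
    linarith
  have hDD : D₁ ≤ D := by linarith
  have hD1 : 1 ≤ D := hD₁1.trans hDD
  have hD0 : 0 < D := by linarith
  have hDle : D ≤ (N : ℝ) ^ (B + k) := by
    rw [hD, pow_add]
    have h5 : (f.leadingCoeff : ℝ) * (N : ℝ) ^ k ≤ (N : ℝ) ^ B * (N : ℝ) ^ k :=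
      mul_le_mul_of_nonneg_right hf.le_pow (by positivity)
    have h6 : 0 < (f.leadingCoeff : ℝ) * (N : ℝ) ^ k := by positivity
    linarith
  have hDh : (N : ℝ) ^ ((1 : ℝ) / 2) ≤ D := by
    refine le_trans ?_ hDN
    rw [← Real.sqrt_eq_rpow, Real.sqrt_le_left (by positivity)]
    nlinarith
  have hDx : ∀ x : ℝ, 0 ≤ x → (N : ℝ) ^ (x / 2) ≤ D ^ x := by
    intro x hx
    have h5 := Real.rpow_le_rpow (by positivity) hDh hx
    rw [← Real.rpow_mul hN0.le] at h5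
    rw [show x / 2 = 1 / 2 * x by ring]
    exact h5
  obtain ⟨L, hL1, hL2, hLW⟩ := hD₁ D hDD
  -- the parameters
  have hSE : ((N : ℝ) ^ (B + k)) ^ ε ≤ N / E := by
    have h5 : ((N : ℝ) ^ (B + k)) ^ ε = √(N : ℝ) := by
      rw [← Real.rpow_natCast, ← Real.rpow_mul hN0.le, Real.sqrt_eq_rpow]
      congr 1
      rw [hε]
      push_cast
      field_simp
    rw [h5, le_div_iff₀ hE0]
    have h6 : E ≤ √(N : ℝ) := Real.le_sqrt_of_sq_le (by linarith)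
    calc √(N : ℝ) * E ≤ √(N : ℝ) * √(N : ℝ) := mul_le_mul_of_nonneg_left h6 (Real.sqrt_nonneg _)
      _ = N := Real.mul_self_sqrt hN0.le
  have hLH : L ≤ H := by
    refine hL2.trans (le_trans ?_ hH1)
    have h5 := Real.rpow_le_rpow hD0.le hDle
      (by positivity : 0 ≤ ε / (32 * (2 * σ) ^ 2))
    refine h5.trans (le_of_eq ?_)
    rw [← Real.rpow_natCast, ← Real.rpow_mul hN0.le]
    congr 1
    rw [hε]
    push_cast
    field_simp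
    norm_num
  have hY : (N : ℝ) ^ σ ≤ D ^ (2 * σ) := by
    have h5 := hDx (2 * σ) (by linarith)
    rwa [show 2 * σ / 2 = σ by ring] at h5
  have hZ : (N : ℝ) ^ (c₀ / 8 / σ ^ 2) ≤ D ^ (c₀ / (2 * σ) ^ 2) := by
    have h5 := hDx (c₀ / (2 * σ) ^ 2) (by positivity)
    refine le_trans (le_of_eq ?_) h5
    congr 1
    field_simp
    norm_num
  have hW : D ^ (-(c₀ / (2 * σ) ^ 2)) ≤ (N : ℝ) ^ (-(c₀ / 8 / σ ^ 2)) := by
    rw [Real.rpow_neg hD0.le, Real.rpow_neg hN0.le]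
    exact inv_anti₀ (by positivity) hZ
  apply coverZ f N H _ _ L _ hL1 hLH (by positivity)
  intro c hc1 hc2
  have hcN : (N : ℝ) ≤ c := by linarith
  have hc3 : (c : ℝ) ≤ (1 + 1 / (8 * k)) * N := by
    refine hc2.trans ?_
    have h5 : 2 * (H : ℝ) ≤ N / (8 * k) := by
      rw [le_div_iff₀ (by positivity)]
      rw [le_div_iff₀ (by positivity)] at hH2
      linarith
    have h6 : (1 + 1 / (8 * (k : ℝ))) * N = N + N / (8 * k) := by ring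
    rw [h6]
    linarith
  rw [hE] at hSE
  have hnear := near_taylor hk hf hN1 ε hε0.le hSE c hcN hc3
  rw [← hD] at hnear
  have hlow : ∀ τ : ℤ, |(τ : ℝ)| ≤ L → D ≤ (((taylor c f).eval τ : ℤ) : ℝ) := by
    intro τ hτ
    rw [taylor_eval]
    have h5 := (abs_le.1 hτ).1
    have h6 : (N : ℝ) ≤ ((τ + c : ℤ) : ℝ) := by
      push_cast
      linarith
    refine le_trans ?_ (eval_near hf hN1 (τ + c) h6).1
    rw [hD]
    have h7 : (N : ℝ) ^ k ≤ ((τ + c : ℤ) : ℝ) ^ k := pow_le_pow_left₀ hN0.le h6 k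
    gcongr
  have h5 := hLW _ (taylor c f) hnear hlow
  have h6 : (WinZ (taylor c f) L ((N : ℝ) ^ (c₀ / 8 / σ ^ 2)) ((N : ℝ) ^ σ)).ncard ≤
      (WinZ (taylor c f) L (D ^ (c₀ / (2 * σ) ^ 2)) (D ^ (2 * σ))).ncard := by
    apply Set.ncard_le_ncard _ (winZ_finite _ _ _ _)
    rintro τ ⟨h7, h8, x, y, h9, h10, h11⟩
    exact ⟨h7, h8, x, y, h9, h10.trans hZ, h11.trans hY⟩
  calc ((WinZ (taylor c f) L ((N : ℝ) ^ (c₀ / 8 / σ ^ 2)) ((N : ℝ) ^ σ)).ncard : ℝ)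
      ≤ ((WinZ (taylor c f) L (D ^ (c₀ / (2 * σ) ^ 2)) (D ^ (2 * σ))).ncard : ℝ) := by
        exact_mod_cast h6
    _ ≤ L * D ^ (-(c₀ / (2 * σ) ^ 2)) := h5
    _ ≤ L * (N : ℝ) ^ (-(c₀ / 8 / σ ^ 2)) := mul_le_mul_of_nonneg_left hW (by linarith)

theorem evrpow (M a : ℝ) (ha : 0 < a) : ∀ᶠ N : ℕ in atTop, M ≤ (N : ℝ) ^ a :=
  ((tendsto_rpow_atTop ha).comp tendsto_natCast_atTop_atTop).eventually (eventually_ge_atTop M)

/-- an interval -/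
theorem intervalP (k B : ℕ) (hk : Odd k) : ∃ c : ℝ, 0 < c ∧ c ≤ 1 ∧ ∀ σ : ℝ, 1 ≤ σ →
    ∃ N₀ : ℕ, ∀ N ≥ N₀, ∀ f : ℤ[X], Dom k B N f → ∀ H : ℕ,
      (N : ℝ) ^ (1 / (128 * σ ^ 2)) ≤ H → H ≤ N →
      ((BadZ f N H ((N : ℝ) ^ (c / σ ^ 2)) ((N : ℝ) ^ σ)).ncard : ℝ) ≤
        H * (N : ℝ) ^ (-(c / σ ^ 2)) := by
  classical
  have hk1 : 1 ≤ k := hk.pos
  have hk1' : (1 : ℝ) ≤ k := by exact_mod_cast hk1
  obtain ⟨c, hc0, hc1, hblk⟩ := blockP k B hk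
  refine ⟨c / 2, by positivity, by linarith, fun σ hσ => ?_⟩
  obtain ⟨N₁, hN₁⟩ := hblk σ hσ
  have hσ1 : 1 ≤ σ ^ 2 := one_le_pow₀ hσ
  have hσ2 : 0 < σ ^ 2 := by positivity
  obtain ⟨N₀, hN₀⟩ := Filter.eventually_atTop.1
    (((tendsto_natCast_atTop_atTop (R := ℝ)).eventually
      (eventually_ge_atTop (N₁ + (32 * (k : ℝ)) ^ 2))).and
    (evrpow 4 (c / (2 * σ ^ 2)) (by positivity)))
  refine ⟨N₀, fun N hN f hf H hH1 hH2 => ?_⟩
  obtain ⟨h1, h2⟩ := hN₀ N hN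
  have hN1r : (N₁ : ℝ) ≤ N := by
    have : 0 ≤ (32 * (k : ℝ)) ^ 2 := sq_nonneg _
    linarith
  have hNN : N₁ ≤ N := by exact_mod_cast hN1r
  have hN2 : (2 : ℝ) ≤ N := by
    have h5 : (2 : ℝ) ≤ (32 * (k : ℝ)) ^ 2 := by nlinarith
    have h6 : (0 : ℝ) ≤ N₁ := Nat.cast_nonneg _
    linarith
  have hN1 : (1 : ℝ) ≤ N := by linarith
  have hN0 : (0 : ℝ) < N := by linarith
  -- the length of the blocks
  obtain ⟨G, hG⟩ : ∃ G : ℕ, G = ⌊(N : ℝ) / (16 * k)⌋₊ := ⟨_, rfl⟩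
  have hG1 : (G : ℝ) ≤ N / (16 * k) := by rw [hG]; exact Nat.floor_le (by positivity)
  have hG2 : √(N : ℝ) ≤ G := by
    have h5 : (N : ℝ) / (16 * k) < G + 1 := by rw [hG]; exact Nat.lt_floor_add_one _
    have h6 : 32 * (k : ℝ) ≤ √(N : ℝ) := by
      apply Real.le_sqrt_of_sq_le
      have : (0 : ℝ) ≤ N₁ := Nat.cast_nonneg _
      linarith
    have h7 : 2 * √(N : ℝ) ≤ N / (16 * k) := by
      rw [le_div_iff₀ (by positivity)]
      calc 2 * √(N : ℝ) * (16 * k) = √(N : ℝ) * (32 * k) := by ring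
        _ ≤ √(N : ℝ) * √(N : ℝ) := mul_le_mul_of_nonneg_left h6 (Real.sqrt_nonneg _)
        _ = N := Real.mul_self_sqrt hN0.le
    have h8 : 1 ≤ √(N : ℝ) := Real.one_le_sqrt.2 hN1
    linarith
  have hexp1 : (N : ℝ) ^ (1 / (128 * σ ^ 2)) ≤ √(N : ℝ) := by
    rw [Real.sqrt_eq_rpow]
    apply Real.rpow_le_rpow_of_exponent_le hN1
    rw [div_le_div_iff₀ (by positivity) (by norm_num)]
    linarith
  obtain ⟨M, hM⟩ : ∃ M : ℕ, M = min H G := ⟨_, rfl⟩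
  have hMH : M ≤ H := by rw [hM]; exact min_le_left _ _
  have hMG : M ≤ G := by rw [hM]; exact min_le_right _ _
  have hMe : (N : ℝ) ^ (1 / (128 * σ ^ 2)) ≤ M := by
    rw [hM]
    push_cast
    exact le_min hH1 (hexp1.trans hG2)
  have hM1 : 1 ≤ M := by
    have h5 : (1 : ℝ) ≤ M := le_trans (Real.one_le_rpow hN1 (by positivity)) hMe
    exact_mod_cast h5
  obtain ⟨q, hq⟩ : ∃ q : ℕ, q = H / M + 1 := ⟨_, rfl⟩
  have hq1 : q * M ≤ 2 * H := by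
    rw [hq, add_mul, one_mul]
    have := Nat.div_mul_le_self H M
    omega
  obtain ⟨Z, hZ⟩ : ∃ Z : ℝ, Z = (N : ℝ) ^ (c / 2 / σ ^ 2) := ⟨_, rfl⟩
  obtain ⟨Y, hY⟩ : ∃ Y : ℝ, Y = (N : ℝ) ^ σ := ⟨_, rfl⟩
  rw [← hZ, ← hY]
  have hsub : BadZ f N H Z Y ⊆ ⋃ i ∈ Finset.range q, BadZ f (N + i * M) M Z Y := by
    rintro n ⟨h5, h6, h7⟩
    simp only [Set.mem_iUnion, Finset.mem_range]
    refine ⟨(n - N - 1) / M, ?_, ?_, ?_, h7⟩
    · rw [hq]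
      have h8 : (n - N - 1) / M ≤ H / M := Nat.div_le_div_right (by omega)
      omega
    · have h8 := Nat.div_mul_le_self (n - N - 1) M
      omega
    · have h8 := Nat.lt_div_mul_add (a := n - N - 1) (b := M) (by omega)
      omega
  have hblk' : ∀ i ∈ Finset.range q, ((BadZ f (N + i * M) M Z Y).ncard : ℝ) ≤
      2 * M * (N : ℝ) ^ (-(c / σ ^ 2)) := by
    intro i hi
    rw [Finset.mem_range, hq] at hi
    have hiM : i * M ≤ H := by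
      have h5 : i ≤ H / M := by omega
      calc i * M ≤ (H / M) * M := Nat.mul_le_mul_right _ h5
        _ ≤ H := Nat.div_mul_le_self _ _
    obtain ⟨N', hN'⟩ : ∃ N' : ℕ, N' = N + i * M := ⟨_, rfl⟩
    rw [← hN']
    have hNi : (N : ℝ) ≤ N' := by
      rw [hN']
      exact_mod_cast Nat.le_add_right N (i * M)
    have hNi2 : (N' : ℝ) ≤ (N : ℝ) ^ (2 : ℕ) := by
      have h5 : N' ≤ 2 * N := by omega
      have h6 : (N' : ℝ) ≤ 2 * N := by exact_mod_cast h5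
      nlinarith
    have h5 := hN₁ N' (by omega) f (hf.mono hN1 hNi) M
      (by
        refine le_trans ?_ hMe
        have h6 := Real.rpow_le_rpow (Nat.cast_nonneg N') hNi2
          (by positivity : 0 ≤ 1 / (256 * σ ^ 2))
        refine h6.trans (le_of_eq ?_)
        rw [← Real.rpow_natCast, ← Real.rpow_mul hN0.le]
        congr 1
        push_cast
        field_simp
        norm_num)
      (by
        have h6 : (M : ℝ) ≤ N / (16 * k) := le_trans (by exact_mod_cast hMG) hG1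
        refine h6.trans ?_
        gcongr)
    have hZ' : Z ≤ (N' : ℝ) ^ (c / σ ^ 2) := by
      rw [hZ]
      calc (N : ℝ) ^ (c / 2 / σ ^ 2) ≤ (N : ℝ) ^ (c / σ ^ 2) := by
            apply Real.rpow_le_rpow_of_exponent_le hN1
            apply div_le_div_of_nonneg_right _ hσ2.le
            linarith
        _ ≤ (N' : ℝ) ^ (c / σ ^ 2) := Real.rpow_le_rpow hN0.le hNi (by positivity)
    have hY' : Y ≤ (N' : ℝ) ^ σ := by
      rw [hY]
      exact Real.rpow_le_rpow hN0.le hNi (by linarith)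
    have h6 : (BadZ f N' M Z Y).ncard ≤
        (BadZ f N' M ((N' : ℝ) ^ (c / σ ^ 2)) ((N' : ℝ) ^ σ)).ncard := by
      apply Set.ncard_le_ncard _ (badZ_finite _ _ _ _ _)
      rintro n ⟨h7, h8, h9, x, y, h10, h11, h12⟩
      exact ⟨h7, h8, h9, x, y, h10, h11.trans hZ', h12.trans hY'⟩
    have h7 : ((BadZ f N' M Z Y).ncard : ℝ) ≤
        ((BadZ f N' M ((N' : ℝ) ^ (c / σ ^ 2)) ((N' : ℝ) ^ σ)).ncard : ℝ) := by
      exact_mod_cast h6
    refine h7.trans (h5.trans ?_)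
    apply mul_le_mul_of_nonneg_left _ (by positivity)
    rw [Real.rpow_neg (by linarith), Real.rpow_neg hN0.le]
    exact inv_anti₀ (by positivity) (Real.rpow_le_rpow hN0.le hNi (by positivity))
  have hfin : (⋃ i ∈ Finset.range q, BadZ f (N + i * M) M Z Y).Finite :=
    Set.Finite.biUnion (Finset.finite_toSet _) fun i _ => badZ_finite _ _ _ _ _
  have h5 : ((BadZ f N H Z Y).ncard : ℝ) ≤
      ∑ i ∈ Finset.range q, ((BadZ f (N + i * M) M Z Y).ncard : ℝ) := by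
    have h6 := Set.ncard_le_ncard hsub hfin
    have h7 := Finset.set_ncard_biUnion_le (Finset.range q) (fun i => BadZ f (N + i * M) M Z Y)
    exact_mod_cast h6.trans h7
  refine h5.trans ((Finset.sum_le_sum hblk').trans ?_)
  rw [Finset.sum_const, Finset.card_range, nsmul_eq_mul]
  have h6 : (q : ℝ) * M ≤ 2 * H := by exact_mod_cast hq1
  have h7 : (N : ℝ) ^ (-(c / σ ^ 2)) * (N : ℝ) ^ (c / (2 * σ ^ 2)) =
      (N : ℝ) ^ (-(c / 2 / σ ^ 2)) := by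
    rw [← Real.rpow_add hN0]
    congr 1
    field_simp
    ring
  have h8 : 0 < (N : ℝ) ^ (-(c / σ ^ 2)) := Real.rpow_pos_of_pos hN0 _
  have hH0 : (0 : ℝ) ≤ H := Nat.cast_nonneg H
  calc (q : ℝ) * (2 * M * (N : ℝ) ^ (-(c / σ ^ 2)))
      = 2 * (q * M) * (N : ℝ) ^ (-(c / σ ^ 2)) := by ring
    _ ≤ 2 * (2 * H) * (N : ℝ) ^ (-(c / σ ^ 2)) := by gcongr
    _ = H * ((N : ℝ) ^ (-(c / σ ^ 2)) * 4) := by ring
    _ ≤ H * ((N : ℝ) ^ (-(c / σ ^ 2)) * (N : ℝ) ^ (c / (2 * σ ^ 2))) := by gcongr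
    _ = H * (N : ℝ) ^ (-(c / 2 / σ ^ 2)) := by rw [h7]

/-- the integers up to `N` with squarefree value and a small norm -/
def AllZ (f : ℤ[X]) (N : ℕ) (Z Y : ℝ) : Set ℕ := {n : ℕ | n ≤ N ∧ Squarefree (f.eval (n : ℤ)) ∧
  ∃ x y : ℤ, 1 ≤ y ∧ |((x ^ 2 - f.eval (n : ℤ) * y ^ 2 : ℤ) : ℝ)| ≤ Z ∧ (y : ℝ) ≤ Y}

theorem allZ_finite (f : ℤ[X]) (N : ℕ) (Z Y : ℝ) : (AllZ f N Z Y).Finite :=
  (Set.finite_Iic N).subset fun _ h => h.1

/-- all the integers up to `N` -/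
theorem allP (k B : ℕ) (hk : Odd k) : ∃ c : ℝ, 0 < c ∧ c ≤ 1 ∧ ∀ σ : ℝ, 1 ≤ σ →
    (∃ N₀ : ℕ, ∀ N ≥ N₀, ∀ f : ℤ[X], Dom k B N f → ∀ H : ℕ,
      (N : ℝ) ^ (1 / (128 * σ ^ 2)) ≤ H → H ≤ N →
      ((BadZ f N H ((N : ℝ) ^ (c / σ ^ 2)) ((N : ℝ) ^ σ)).ncard : ℝ) ≤
        H * (N : ℝ) ^ (-(c / σ ^ 2))) ∧
    ∀ f : ℤ[X], ∀ N₁ : ℕ, (∀ N ≥ N₁, Dom k B N f) → ∃ N₀ : ℕ, ∀ N ≥ N₀,
      ((AllZ f N ((N : ℝ) ^ (c / σ ^ 2)) ((N : ℝ) ^ σ)).ncard : ℝ) ≤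
        (N : ℝ) ^ (1 - c / σ ^ 2) := by
  classical
  obtain ⟨c, hc0, hc1, hint⟩ := intervalP k B hk
  refine ⟨c / 27, by positivity, by linarith, fun σ hσ => ⟨?_, ?_⟩⟩
  · obtain ⟨N₀, hN₀⟩ := hint σ hσ
    have hσ2 : 0 < σ ^ 2 := by positivity
    have hcc : c / 27 / σ ^ 2 ≤ c / σ ^ 2 := div_le_div_of_nonneg_right (by linarith) hσ2.le
    refine ⟨max 1 N₀, fun N hN f hf H hH1 hH2 => ?_⟩
    have hN1 : (1 : ℝ) ≤ N := by exact_mod_cast (le_max_left _ _).trans hN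
    have h1 := hN₀ N ((le_max_right _ _).trans hN) f hf H hH1 hH2
    have h2 : (BadZ f N H ((N : ℝ) ^ (c / 27 / σ ^ 2)) ((N : ℝ) ^ σ)).ncard ≤
        (BadZ f N H ((N : ℝ) ^ (c / σ ^ 2)) ((N : ℝ) ^ σ)).ncard := by
      apply Set.ncard_le_ncard _ (badZ_finite _ _ _ _ _)
      rintro n ⟨h7, h8, h9, x, y, h10, h11, h12⟩
      exact ⟨h7, h8, h9, x, y, h10,
        h11.trans (Real.rpow_le_rpow_of_exponent_le hN1 hcc), h12⟩
    have h3 : ((BadZ f N H ((N : ℝ) ^ (c / 27 / σ ^ 2)) ((N : ℝ) ^ σ)).ncard : ℝ) ≤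
        ((BadZ f N H ((N : ℝ) ^ (c / σ ^ 2)) ((N : ℝ) ^ σ)).ncard : ℝ) := by exact_mod_cast h2
    refine h3.trans (h1.trans ?_)
    apply mul_le_mul_of_nonneg_left _ (Nat.cast_nonneg H)
    exact Real.rpow_le_rpow_of_exponent_le hN1 (by linarith)
  intro f N₁ hf
  obtain ⟨N₂, hN₂⟩ := hint (3 * σ) (by linarith)
  have hσ1 : 1 ≤ σ ^ 2 := one_le_pow₀ hσ
  have hσ2 : 0 < σ ^ 2 := by positivity
  obtain ⟨a, ha⟩ : ∃ a, a = c / 27 / σ ^ 2 := ⟨_, rfl⟩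
  have ha0 : 0 < a := by rw [ha]; positivity
  have ha1 : a ≤ 1 / 27 := by
    rw [ha, div_le_iff₀ hσ2]
    nlinarith
  have hca : c / (3 * σ) ^ 2 = 3 * a := by
    rw [ha]
    field_simp
    norm_num
  rw [← ha]
  rw [hca] at hN₂
  obtain ⟨N₀, hN₀⟩ := Filter.eventually_atTop.1
    (((tendsto_natCast_atTop_atTop (R := ℝ)).eventually
      (eventually_ge_atTop (4 * ((N₁ : ℝ) + N₂ + 4) ^ 2))).and
    ((evrpow (8 / a) a ha0).and (evrpow 4 (1 / 4) (by norm_num))))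
  refine ⟨N₀, fun N hN => ?_⟩
  obtain ⟨h1, h2, h3⟩ := hN₀ N hN
  obtain ⟨s, hs⟩ : ∃ s, s = √(N : ℝ) := ⟨_, rfl⟩
  have hN10 : (0 : ℝ) ≤ N₁ := Nat.cast_nonneg _
  have hN20 : (0 : ℝ) ≤ N₂ := Nat.cast_nonneg _
  have hs1 : 2 * ((N₁ : ℝ) + N₂ + 4) ≤ s := by
    rw [hs]
    apply Real.le_sqrt_of_sq_le
    refine le_trans (le_of_eq ?_) h1
    ring
  have hs8 : 8 ≤ s := by linarith
  have hss : s * s = N := by rw [hs]; exact Real.mul_self_sqrt (Nat.cast_nonneg N)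
  have hN64 : (64 : ℝ) ≤ N := by nlinarith
  have hN1 : (1 : ℝ) ≤ N := by linarith
  have hN0 : (0 : ℝ) < N := by linarith
  have hNn0 : N ≠ 0 := by
    rintro rfl
    simp at hN0
  obtain ⟨Z, hZ⟩ : ∃ Z : ℝ, Z = (N : ℝ) ^ a := ⟨_, rfl⟩
  obtain ⟨Y, hY⟩ : ∃ Y : ℝ, Y = (N : ℝ) ^ σ := ⟨_, rfl⟩
  rw [← hZ, ← hY]
  obtain ⟨I, hI⟩ : ∃ I : Finset ℕ, I = (Finset.range (Nat.log 2 N + 1)).filter fun i : ℕ =>
    s < 2 * 2 ^ i := ⟨_, rfl⟩
  have hsub : AllZ f N Z Y ⊆ ((Finset.range (⌊s⌋₊ + 1) : Finset ℕ) : Set ℕ) ∪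
      ⋃ i ∈ I, BadZ f (2 ^ i) (2 ^ i) Z Y := by
    rintro n ⟨h5, h6⟩
    rw [Set.mem_union]
    by_cases hns : (n : ℝ) ≤ s
    · left
      rw [Finset.mem_coe, Finset.mem_range]
      have := Nat.le_floor hns
      omega
    · right
      push Not at hns
      have hn8 : (8 : ℝ) < n := by linarith
      have hn8' : 8 < n := by exact_mod_cast hn8
      have hn1 : n - 1 ≠ 0 := by omega
      have h7 := Nat.pow_log_le_self 2 hn1
      have h8 := Nat.lt_pow_succ_log_self (b := 2) (by norm_num) (n - 1)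
      rw [pow_succ] at h8
      rw [Set.mem_iUnion₂]
      refine ⟨Nat.log 2 (n - 1), ?_, ?_, ?_, h6⟩
      · rw [hI, Finset.mem_filter, Finset.mem_range]
        constructor
        · have : Nat.log 2 (n - 1) ≤ Nat.log 2 N := Nat.log_mono_right (by omega)
          omega
        · have h9 : n ≤ 2 * 2 ^ Nat.log 2 (n - 1) := by omega
          have h10 : (n : ℝ) ≤ 2 * 2 ^ Nat.log 2 (n - 1) := by exact_mod_cast h9
          linarith
      · omega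
      · omega
  have hblk' : ∀ i ∈ I, ((BadZ f (2 ^ i) (2 ^ i) Z Y).ncard : ℝ) ≤ (N : ℝ) ^ (1 - 3 * a) := by
    intro i hi
    rw [hI, Finset.mem_filter, Finset.mem_range] at hi
    obtain ⟨hi1, hi2⟩ := hi
    obtain ⟨M, hM⟩ : ∃ M : ℕ, M = 2 ^ i := ⟨_, rfl⟩
    rw [← hM]
    have hMr : (M : ℝ) = 2 ^ i := by rw [hM]; push_cast; rfl
    rw [← hMr] at hi2
    have hMN : M ≤ N := by
      rw [hM]
      exact (Nat.pow_le_pow_right (by norm_num) (by omega : i ≤ Nat.log 2 N)).trans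
        (Nat.pow_log_le_self 2 hNn0)
    have hMN' : (M : ℝ) ≤ N := by exact_mod_cast hMN
    have hM12 : (N₁ : ℝ) + N₂ + 4 ≤ M := by linarith
    have hM1 : N₁ ≤ M := by
      have : (N₁ : ℝ) ≤ M := by linarith
      exact_mod_cast this
    have hM2 : N₂ ≤ M := by
      have : (N₂ : ℝ) ≤ M := by linarith
      exact_mod_cast this
    have hM0 : (0 : ℝ) < M := by linarith
    have hM1r : (1 : ℝ) ≤ M := by linarith
    have hNM : (N : ℝ) ≤ (M : ℝ) ^ (3 : ℕ) := by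
      have h5 : s / 2 ≤ M := by linarith
      have h6 : (s / 2) ^ 3 ≤ (M : ℝ) ^ 3 := pow_le_pow_left₀ (by linarith) h5 3
      have h7 : (N : ℝ) ≤ (s / 2) ^ 3 := by
        calc (N : ℝ) = s * s * 1 := by rw [hss, mul_one]
          _ ≤ s * s * (s / 8) := by
              apply mul_le_mul_of_nonneg_left (by linarith) (by positivity)
          _ = (s / 2) ^ 3 := by ring
      linarith
    have h5 := hN₂ M hM2 f (hf M hM1) M (by
      calc (M : ℝ) ^ (1 / (128 * (3 * σ) ^ 2)) ≤ (M : ℝ) ^ (1 : ℝ) := by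
            apply Real.rpow_le_rpow_of_exponent_le hM1r
            rw [div_le_one (by positivity)]
            nlinarith
        _ = M := Real.rpow_one _) le_rfl
    have hZ' : Z ≤ (M : ℝ) ^ (3 * a) := by
      rw [hZ]
      have h6 := Real.rpow_le_rpow hN0.le hNM ha0.le
      rw [← Real.rpow_natCast, ← Real.rpow_mul hM0.le] at h6
      exact_mod_cast h6
    have hY' : Y ≤ (M : ℝ) ^ (3 * σ) := by
      rw [hY]
      have h6 := Real.rpow_le_rpow hN0.le hNM (by linarith : 0 ≤ σ)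
      rw [← Real.rpow_natCast, ← Real.rpow_mul hM0.le] at h6
      exact_mod_cast h6
    have h6 : (BadZ f M M Z Y).ncard ≤
        (BadZ f M M ((M : ℝ) ^ (3 * a)) ((M : ℝ) ^ (3 * σ))).ncard := by
      apply Set.ncard_le_ncard _ (badZ_finite _ _ _ _ _)
      rintro n ⟨h7, h8, h9, x, y, h10, h11, h12⟩
      exact ⟨h7, h8, h9, x, y, h10, h11.trans hZ', h12.trans hY'⟩
    have h7 : ((BadZ f M M Z Y).ncard : ℝ) ≤
        ((BadZ f M M ((M : ℝ) ^ (3 * a)) ((M : ℝ) ^ (3 * σ))).ncard : ℝ) := by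
      exact_mod_cast h6
    refine h7.trans (h5.trans ?_)
    calc (M : ℝ) * (M : ℝ) ^ (-(3 * a)) = (M : ℝ) ^ (1 - 3 * a) := by
          rw [sub_eq_add_neg, Real.rpow_add hM0, Real.rpow_one]
      _ ≤ (N : ℝ) ^ (1 - 3 * a) := Real.rpow_le_rpow hM0.le hMN' (by linarith)
  have hfin : (⋃ i ∈ I, BadZ f (2 ^ i) (2 ^ i) Z Y).Finite :=
    Set.Finite.biUnion (Finset.finite_toSet _) fun i _ => badZ_finite _ _ _ _ _
  have h5 : ((AllZ f N Z Y).ncard : ℝ) ≤ ((⌊s⌋₊ + 1 : ℕ) : ℝ) +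
      ∑ i ∈ I, ((BadZ f (2 ^ i) (2 ^ i) Z Y).ncard : ℝ) := by
    have h6 := Set.ncard_le_ncard hsub ((Finset.finite_toSet _).union hfin)
    have h7 := Set.ncard_union_le ((Finset.range (⌊s⌋₊ + 1) : Finset ℕ) : Set ℕ)
      (⋃ i ∈ I, BadZ f (2 ^ i) (2 ^ i) Z Y)
    have h8 := Finset.set_ncard_biUnion_le I (fun i => BadZ f (2 ^ i) (2 ^ i) Z Y)
    rw [Set.ncard_coe_finset, Finset.card_range] at h7
    exact_mod_cast h6.trans (h7.trans (Nat.add_le_add_left h8 _))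
  have h6 := Finset.sum_le_sum hblk'
  rw [Finset.sum_const, nsmul_eq_mul] at h6
  have hlogN : 0 < Real.log N := Real.log_pos (by linarith)
  have hIc : (I.card : ℝ) ≤ 4 * Real.log N := by
    have h7 : I.card ≤ Nat.log 2 N + 1 := by
      rw [hI]
      refine (Finset.card_filter_le _ _).trans ?_
      rw [Finset.card_range]
    have h8 : ((Nat.log 2 N : ℕ) : ℝ) * Real.log 2 ≤ Real.log N := by
      have h9 := Nat.pow_log_le_self 2 hNn0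
      have h10 : (2 : ℝ) ^ Nat.log 2 N ≤ N := by exact_mod_cast h9
      have h11 := Real.log_le_log (by positivity) h10
      rwa [Real.log_pow] at h11
    have h9 : (1 : ℝ) / 2 ≤ Real.log 2 := by
      have := Real.log_two_gt_d9
      linarith
    have h10 : (0 : ℝ) ≤ ((Nat.log 2 N : ℕ) : ℝ) := Nat.cast_nonneg _
    have h11 : ((Nat.log 2 N : ℕ) : ℝ) ≤ 2 * Real.log N := by nlinarith
    have h12 : 1 ≤ Real.log N := by
      rw [Real.le_log_iff_exp_le hN0]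
      have := Real.exp_one_lt_d9
      linarith
    have h13 : (I.card : ℝ) ≤ (Nat.log 2 N : ℕ) + 1 := by exact_mod_cast h7
    linarith
  have hlog : 8 * Real.log N ≤ (N : ℝ) ^ (2 * a) := by
    have h7 := Real.log_le_rpow_div hN0.le ha0
    have h8 : (N : ℝ) ^ (2 * a) = (N : ℝ) ^ a * (N : ℝ) ^ a := by
      rw [← Real.rpow_add hN0]
      congr 1
      ring
    have h9 : 0 < (N : ℝ) ^ a := Real.rpow_pos_of_pos hN0 _
    rw [h8]
    calc 8 * Real.log N ≤ 8 * ((N : ℝ) ^ a / a) := by linarith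
      _ = (8 / a) * (N : ℝ) ^ a := by ring
      _ ≤ (N : ℝ) ^ a * (N : ℝ) ^ a := mul_le_mul_of_nonneg_right h2 h9.le
  have hp3 : 0 < (N : ℝ) ^ (1 - 3 * a) := Real.rpow_pos_of_pos hN0 _
  have hsum : (I.card : ℝ) * (N : ℝ) ^ (1 - 3 * a) ≤ 1 / 2 * (N : ℝ) ^ (1 - a) := by
    have h7 : (N : ℝ) ^ (1 - a) = (N : ℝ) ^ (2 * a) * (N : ℝ) ^ (1 - 3 * a) := by
      rw [← Real.rpow_add hN0]
      congr 1
      ring
    rw [h7]
    calc (I.card : ℝ) * (N : ℝ) ^ (1 - 3 * a) ≤ (4 * Real.log N) * (N : ℝ) ^ (1 - 3 * a) :=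
          mul_le_mul_of_nonneg_right hIc hp3.le
      _ = 1 / 2 * ((8 * Real.log N) * (N : ℝ) ^ (1 - 3 * a)) := by ring
      _ ≤ 1 / 2 * ((N : ℝ) ^ (2 * a) * (N : ℝ) ^ (1 - 3 * a)) := by
          apply mul_le_mul_of_nonneg_left _ (by norm_num)
          exact mul_le_mul_of_nonneg_right hlog hp3.le
  have hs2 : ((⌊s⌋₊ + 1 : ℕ) : ℝ) ≤ 1 / 2 * (N : ℝ) ^ (1 - a) := by
    push_cast
    have h7 : ((⌊s⌋₊ : ℕ) : ℝ) ≤ s := Nat.floor_le (by linarith)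
    have h8 : 4 * s ≤ (N : ℝ) ^ (1 - a) := by
      calc 4 * s ≤ (N : ℝ) ^ ((1 : ℝ) / 4) * s := mul_le_mul_of_nonneg_right h3 (by linarith)
        _ = (N : ℝ) ^ ((3 : ℝ) / 4) := by
            rw [hs, Real.sqrt_eq_rpow, ← Real.rpow_add hN0]
            norm_num
        _ ≤ (N : ℝ) ^ (1 - a) := Real.rpow_le_rpow_of_exponent_le hN1 (by linarith)
    linarith
  linarith

end Pool.Agent.H45.PS
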