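import Pool.Agent.H45.PS.COVP
import Pool.Agent.H45.PF.FIN

/-! Regulators, class numbers and small norms with a power saving. -/

set_option autoImplicit false

namespace Pool.Agent.H45.PS

open Polynomial Pool.Agent.Q276.PL Pool.Agent.H45.PF Pool.Agent.H45.NF Filter Topology NumberField
  Pool.Agent.H45.RQ
open Pool.Agent.H38R2.CG (Lone)
open Pool.Agent.Q149.PL (isFund_dsc dsc_le le_dsc dsc_or)

/-- the upper bound for the values -/
theorem eval_le {k B : ℕ} {N : ℝ} {f : ℤ[X]} (h : Dom k B N f) (hN : 1 ≤ N) (n : ℕ)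
    (hn : (n : ℝ) ≤ 2 * N) :
    ((f.eval (n : ℤ) : ℤ) : ℝ) ≤ 5 / 4 * ((f.leadingCoeff : ℝ) * (2 * N) ^ k) := by
  have h' := h.mono hN (by linarith : N ≤ 2 * N)
  obtain ⟨T, hT⟩ : ∃ T, T = 2 * N := ⟨_, rfl⟩
  rw [← hT] at h' hn ⊢
  have hT0 : 0 < T := by linarith
  have h1 : (1 : ℝ) ≤ f.leadingCoeff := by exact_mod_cast h.one_le
  have hn0 : (0 : ℝ) ≤ n := Nat.cast_nonneg n
  have h2 : ((f.eval (n : ℤ) : ℤ) : ℝ) =
      ∑ i ∈ Finset.range (k + 1), (f.coeff i : ℝ) * (n : ℝ) ^ i := by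
    rw [Polynomial.eval_eq_sum_range' (n := k + 1) (by have := h.deg; omega)]
    push_cast
    rfl
  have h3 : (f.coeff k : ℝ) = f.leadingCoeff := by
    rw [← h.deg, coeff_natDegree]
  rw [h2, Finset.sum_range_succ, h3]
  have h4 : ∑ i ∈ Finset.range k, (f.coeff i : ℝ) * (n : ℝ) ^ i ≤
      ∑ i ∈ Finset.range k, (f.leadingCoeff : ℝ) * T ^ k / (4 * (k + 1)) := by
    apply Finset.sum_le_sum
    intro i hi
    rw [Finset.mem_range] at hi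
    have h5 := h'.coef i hi
    have h6 : (n : ℝ) ^ i ≤ T ^ i := pow_le_pow_left₀ hn0 hn i
    calc (f.coeff i : ℝ) * (n : ℝ) ^ i ≤ |(f.coeff i : ℝ)| * (n : ℝ) ^ i :=
          mul_le_mul_of_nonneg_right (le_abs_self _) (by positivity)
      _ ≤ (f.leadingCoeff * T ^ (k - i) / (4 * (k + 1))) * T ^ i :=
          mul_le_mul h5 h6 (by positivity) (by positivity)
      _ = f.leadingCoeff * (T ^ (k - i) * T ^ i) / (4 * (k + 1)) := by ring
      _ = f.leadingCoeff * T ^ k / (4 * (k + 1)) := by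
          rw [← pow_add, Nat.sub_add_cancel hi.le]
  rw [Finset.sum_const, Finset.card_range, nsmul_eq_mul] at h4
  have h5 : (k : ℝ) * (f.leadingCoeff * T ^ k / (4 * (k + 1))) ≤
      1 / 4 * (f.leadingCoeff * T ^ k) := by
    have h6 : 0 ≤ (f.leadingCoeff : ℝ) * T ^ k := by positivity
    rw [mul_div_assoc', div_le_iff₀ (by positivity)]
    nlinarith
  have h6 : (f.leadingCoeff : ℝ) * (n : ℝ) ^ k ≤ f.leadingCoeff * T ^ k := by
    have h7 : (n : ℝ) ^ k ≤ T ^ k := pow_le_pow_left₀ hn0 hn k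
    exact mul_le_mul_of_nonneg_left h7 (by linarith)
  linarith

theorem regcl {C₀ : ℝ} (hC1 : 1 ≤ C₀)
    (hC₀ : ∀ D : ℕ, Pool.Agent.H38R2.CG.IsFund D → Lone D ≤ C₀ * (1 + Real.log D))
    {d : ℕ} (h1 : 1 < d) (hs : Squarefree d) {t A K : ℝ} (ht : 0 < t) (hA : 0 < A)
    (hK : 1 + Real.log (dsc d) ≤ K * t)
    (hns : ¬ ∃ x y : ℤ, Fund (d : ℤ) x y ∧ (y : ℝ) ≤ Real.exp (6 * (A * t))) :
    A * t < reg d ∧ (hnum d : ℝ) ≤ C₀ * K * √(d : ℝ) / A := by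
  have hns' : ¬ SmallUnit (dsc d) (Real.exp (A * t)) := by
    intro hsu
    exact hns (fund_of_small h1 hsu)
  refine ⟨reg_gt h1 hs hns', ?_⟩
  have h9 := h_reg h1 hs hns'
  have h10 := hC₀ (dsc d) (isFund_dsc h1 hs)
  have h12 : Lone (dsc d) ≤ C₀ * (K * t) :=
    h10.trans (mul_le_mul_of_nonneg_left hK (by linarith))
  have h13 : A * t * hnum d ≤ √(d : ℝ) * (C₀ * (K * t)) :=
    h9.trans (mul_le_mul_of_nonneg_left h12 (Real.sqrt_nonneg _))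
  rw [le_div_iff₀ hA]
  have h16 : ((hnum d : ℝ) * A) * t ≤ (C₀ * K * √(d : ℝ)) * t := by linarith
  exact le_of_mul_le_mul_right h16 ht

/-- the exceptional values -/
def Exc (N : ℕ) (A c C : ℝ) (d : ℤ) : Prop := 1 < d ∧ Squarefree d ∧
  (reg d.toNat ≤ A * Real.log N ∨ C * √((d.toNat : ℕ) : ℝ) / A < (hnum d.toNat : ℝ) ∨
    ∃ x y : ℤ, 1 ≤ y ∧ (y : ℝ) ≤ (N : ℝ) ^ A ∧
      |((x ^ 2 - d * y ^ 2 : ℤ) : ℝ)| ≤ (N : ℝ) ^ (c / A ^ 2))

theorem exc_sol {C₀ : ℝ} (hC1 : 1 ≤ C₀)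
    (hC₀ : ∀ D : ℕ, Pool.Agent.H38R2.CG.IsFund D → Lone D ≤ C₀ * (1 + Real.log D))
    {k B : ℕ} {N : ℕ} {f : ℤ[X]} (hf : Dom k B N f) (hN3 : (3 : ℝ) ≤ N) (h4 : 4 ≤ Real.log N)
    {A c : ℝ} (hA : 1 ≤ A) (hc : 0 < c) {n : ℕ} (hn : n ≤ 2 * N)
    (h : Exc N A c (C₀ * (2 * ((B : ℝ) + k) + 4)) (f.eval (n : ℤ))) :
    Squarefree (f.eval (n : ℤ)) ∧ ∃ x y : ℤ, 1 ≤ y ∧
      |((x ^ 2 - f.eval (n : ℤ) * y ^ 2 : ℤ) : ℝ)| ≤ (N : ℝ) ^ (c / A ^ 2) ∧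
      (y : ℝ) ≤ (N : ℝ) ^ (6 * A) := by
  obtain ⟨h5, h7, h8⟩ := h
  refine ⟨h7, ?_⟩
  have hN1 : (1 : ℝ) ≤ N := by linarith
  have hN0 : (0 : ℝ) < N := by linarith
  obtain ⟨d, hd⟩ : ∃ d : ℕ, d = (f.eval (n : ℤ)).toNat := ⟨_, rfl⟩
  have hdz : ((d : ℕ) : ℤ) = f.eval (n : ℤ) := by
    rw [hd]
    exact Int.toNat_of_nonneg (by omega)
  have hdr : (d : ℝ) = ((f.eval (n : ℤ) : ℤ) : ℝ) := by
    rw [← hdz]
    push_cast
    rfl
  have hd1 : 1 < d := by omega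
  have hsd : Squarefree d := by
    rw [← hdz] at h7
    exact Int.squarefree_natCast.1 h7
  have hn2 : (n : ℝ) ≤ 2 * N := by exact_mod_cast hn
  have hev := eval_le hf hN1 n hn2
  have hlc : (1 : ℝ) ≤ f.leadingCoeff := by exact_mod_cast hf.one_le
  rw [← hd] at h8
  rw [← hdz] at h8 ⊢
  -- the logarithm of `d`
  have hlogd : Real.log (dsc d) ≤ (2 * ((B : ℝ) + k) + 3) * Real.log N := by
    have h11 : (dsc d : ℝ) ≤ 4 * d := by exact_mod_cast dsc_le d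
    have h12 : (d : ℝ) ≤ 5 / 4 * ((N : ℝ) ^ B * (2 * N) ^ k) := by
      rw [hdr]
      refine hev.trans ?_
      have h14 := hf.le_pow
      gcongr
    have h13 : (dsc d : ℝ) ≤ 5 * ((N : ℝ) ^ B * (2 * N) ^ k) := by linarith
    have hd5 : (5 : ℝ) ≤ dsc d := by exact_mod_cast five_le_dsc hd1
    have h14 := Real.log_le_log (by linarith) h13
    rw [Real.log_mul (by norm_num) (by positivity), Real.log_mul (by positivity) (by positivity),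
      Real.log_pow, Real.log_pow, Real.log_mul (by norm_num) hN0.ne'] at h14
    have h15 : Real.log 2 ≤ 1 := by
      have := Real.log_two_lt_d9
      linarith
    have h16 : Real.log 5 ≤ 3 := by
      have h17 : Real.log 5 ≤ Real.log 8 := Real.log_le_log (by norm_num) (by norm_num)
      rw [show (8 : ℝ) = 2 ^ 3 by norm_num, Real.log_pow] at h17
      push_cast at h17
      linarith
    have hA0 : (0 : ℝ) ≤ B := Nat.cast_nonneg B
    have hk0 : (0 : ℝ) ≤ k := Nat.cast_nonneg k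
    have h18 : (k : ℝ) * (Real.log 2 + Real.log N) ≤ k * (2 * Real.log N) := by
      apply mul_le_mul_of_nonneg_left _ hk0
      linarith
    have h19 : 0 ≤ (B : ℝ) * Real.log N := by positivity
    nlinarith
  have h11 : 1 + Real.log (dsc d) ≤ (2 * ((B : ℝ) + k) + 4) * Real.log N := by linarith
  by_contra hcon
  have hexp : Real.exp (6 * (A * Real.log N)) = (N : ℝ) ^ (6 * A) := by
    rw [Real.rpow_def_of_pos hN0]
    congr 1
    ring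
  have hns : ¬ ∃ x y : ℤ, Fund (d : ℤ) x y ∧ (y : ℝ) ≤ Real.exp (6 * (A * Real.log N)) := by
    rintro ⟨x, y, hfu, hy⟩
    apply hcon
    refine ⟨x, y, hfu.2.1, ?_, ?_⟩
    · rw [hfu.2.2.1]
      push_cast
      rw [abs_one]
      exact Real.one_le_rpow hN1 (by positivity)
    · rw [← hexp]
      exact hy
  have h12 := regcl hC1 hC₀ hd1 hsd (by linarith : 0 < Real.log N) (by linarith) h11 hns
  rcases h8 with h8 | h8 | ⟨x, y, h8, h9, h10⟩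
  · linarith [h12.1]
  · linarith [h12.2]
  · apply hcon
    refine ⟨x, y, h8, h10, h9.trans ?_⟩
    exact Real.rpow_le_rpow_of_exponent_le hN1 (by linarith)

theorem finalP (k B : ℕ) (hk : Odd k) : ∃ c C : ℝ, 0 < c ∧ ∀ A : ℝ, 1 ≤ A →
    (∃ N₀ : ℕ, ∀ N ≥ N₀, ∀ f : ℤ[X], Dom k B N f → ∀ H : ℕ, (N : ℝ) ^ (1 / A ^ 2) ≤ H → H ≤ N →
      ({n : ℕ | N < n ∧ n ≤ N + H ∧ Exc N A c C (f.eval (n : ℤ))}.ncard : ℝ) ≤
        H * (N : ℝ) ^ (-(c / A ^ 2))) ∧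
    ∀ f : ℤ[X], ∀ N₁ : ℕ, (∀ N ≥ N₁, Dom k B N f) → ∃ N₀ : ℕ, ∀ N ≥ N₀,
      ({n : ℕ | n ≤ N ∧ Exc N A c C (f.eval (n : ℤ))}.ncard : ℝ) ≤ (N : ℝ) ^ (1 - c / A ^ 2) := by
  obtain ⟨c, hc0, hc1, hall⟩ := allP k B hk
  obtain ⟨C₀, hC1, hC₀⟩ := lone_le
  obtain ⟨N₂, hN₂⟩ := Filter.eventually_atTop.1
    ((tendsto_natCast_atTop_atTop (R := ℝ)).eventually (eventually_ge_atTop 3) |>.and
      ((nlim 1 one_pos).eventually (eventually_ge_atTop 4)))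
  refine ⟨c / 36, C₀ * (2 * ((B : ℝ) + k) + 4), by positivity, fun A hA => ?_⟩
  have hA2 : 1 ≤ A ^ 2 := one_le_pow₀ hA
  have hcA : c / (6 * A) ^ 2 = c / 36 / A ^ 2 := by
    field_simp
    norm_num
  obtain ⟨hint, hone⟩ := hall (6 * A) (by linarith)
  rw [hcA] at hint hone
  constructor
  · obtain ⟨N₀, hN₀⟩ := hint
    refine ⟨max N₀ N₂, fun N hN f hf H hH1 hH2 => ?_⟩
    obtain ⟨h3, h4⟩ := hN₂ N ((le_max_right _ _).trans hN)
    rw [Real.rpow_one] at h4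
    have hN1 : (1 : ℝ) ≤ N := by linarith
    have h5 := hN₀ N ((le_max_left _ _).trans hN) f hf H (by
      refine le_trans ?_ hH1
      apply Real.rpow_le_rpow_of_exponent_le hN1
      apply div_le_div_of_nonneg_left (by norm_num) (by positivity)
      nlinarith) hH2
    refine le_trans ?_ h5
    have h6 := Set.ncard_le_ncard (s := {n : ℕ | N < n ∧ n ≤ N + H ∧
      Exc N A (c / 36) (C₀ * (2 * ((B : ℝ) + k) + 4)) (f.eval (n : ℤ))})
      (t := BadZ f N H ((N : ℝ) ^ (c / 36 / A ^ 2)) ((N : ℝ) ^ (6 * A))) ?_ (badZ_finite _ _ _ _ _)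
    · exact_mod_cast h6
    rintro n ⟨h7, h8, h9⟩
    exact ⟨h7, h8, exc_sol hC1 hC₀ hf h3 h4 hA (by positivity) (by omega) h9⟩
  · intro f N₁ hf
    obtain ⟨N₀, hN₀⟩ := hone f N₁ hf
    refine ⟨max N₁ (max N₀ N₂), fun N hN => ?_⟩
    have hNN := (le_max_right _ _).trans hN
    obtain ⟨h3, h4⟩ := hN₂ N ((le_max_right _ _).trans hNN)
    rw [Real.rpow_one] at h4
    refine le_trans ?_ (hN₀ N ((le_max_left _ _).trans hNN))
    have h6 := Set.ncard_le_ncard (s := {n : ℕ | n ≤ N ∧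
      Exc N A (c / 36) (C₀ * (2 * ((B : ℝ) + k) + 4)) (f.eval (n : ℤ))})
      (t := AllZ f N ((N : ℝ) ^ (c / 36 / A ^ 2)) ((N : ℝ) ^ (6 * A))) ?_ (allZ_finite _ _ _ _)
    · exact_mod_cast h6
    rintro n ⟨h8, h9⟩
    exact ⟨h8, exc_sol hC1 hC₀ (hf N ((le_max_left _ _).trans hN)) h3 h4 hA (by positivity)
      (by omega) h9⟩

end Pool.Agent.H45.PS
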