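import Pool.Agent.H45.PF.ROOT

/-! Counting with rough divisors of a fixed number. -/

set_option autoImplicit false

namespace Pool.Agent.H45.PS

open Polynomial Pool.Agent.H45.PF

/-- a large common divisor with a fixed number, without small prime factors -/
theorem count_rough {l : ℤ[X]} {k : ℕ} (hl : l.IsPrimitive) (hd : l.natDegree ≤ k) (M : ℤ)
    (hM : M ≠ 0) (P₀ z R : ℝ) (hP₀ : 1 ≤ P₀) (hz : 1 ≤ z) (hzR : z ≤ R) (A : Finset ℤ)
    (hA : ∀ a ∈ A, ∃ t : Finset ℕ, (∀ p ∈ t, p.Prime ∧ P₀ < p ∧ (p : ℤ) ∣ M ∧ (p : ℤ) ∣ l.eval a) ∧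
      √z < ((∏ p ∈ t, p : ℕ) : ℝ) ∧ ((∏ p ∈ t, p : ℕ) : ℝ) ≤ z)
    (hAR : ∀ a ∈ A, ∀ b ∈ A, (a : ℝ) - b ≤ R) :
    (A.card : ℝ) ≤ 2 * R * (√(√z))⁻¹ *
      Real.exp (k * (Real.log |(M : ℝ)| / Real.log 2) / √P₀) := by
  classical
  obtain ⟨F, hF⟩ : ∃ F : Finset ℕ, F = M.natAbs.primeFactors.filter fun p : ℕ => P₀ < (p : ℝ) :=
    ⟨_, rfl⟩
  have hM0 : M.natAbs ≠ 0 := by omega
  have hR0 : 0 < R := by linarith
  have hFp : ∀ p ∈ F, p.Prime ∧ P₀ < p := by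
    intro p hp
    rw [hF, Finset.mem_filter] at hp
    exact ⟨Nat.prime_of_mem_primeFactors hp.1, hp.2⟩
  have hlog2 : 0 < Real.log 2 := Real.log_pos (by norm_num)
  have hFc : (F.card : ℝ) ≤ Real.log |(M : ℝ)| / Real.log 2 := by
    rw [le_div_iff₀ hlog2]
    have h3 : 2 ^ F.card ≤ M.natAbs := by
      calc 2 ^ F.card ≤ 2 ^ M.natAbs.primeFactors.card := by
            rw [hF]
            exact Nat.pow_le_pow_right (by norm_num) (Finset.card_le_card (Finset.filter_subset _ _))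
        _ ≤ ∏ p ∈ M.natAbs.primeFactors, p :=
            Finset.pow_card_le_prod _ _ _ fun p hp => (Nat.prime_of_mem_primeFactors hp).two_le
        _ ≤ M.natAbs := Nat.le_of_dvd (by omega) (Nat.prod_primeFactors_dvd _)
    have h4 : (2 : ℝ) ^ F.card ≤ |(M : ℝ)| := by
      have h5 : ((M.natAbs : ℕ) : ℝ) = |(M : ℝ)| := by
        rw [Nat.cast_natAbs, Int.cast_abs]
      rw [← h5]
      exact_mod_cast h3
    have h5 := Real.log_le_log (by positivity) h4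
    rwa [Real.log_pow] at h5
  obtain ⟨TT, hTT⟩ : ∃ TT : Finset (Finset ℕ), TT = F.powerset.filter fun t =>
    √z < ((∏ p ∈ t, p : ℕ) : ℝ) ∧ ((∏ p ∈ t, p : ℕ) : ℝ) ≤ z := ⟨_, rfl⟩
  have hsub : A ⊆ TT.biUnion fun t => A.filter fun a => ∀ p ∈ t, (p : ℤ) ∣ l.eval a := by
    intro a ha
    obtain ⟨t, ht, ht1, ht2⟩ := hA a ha
    rw [Finset.mem_biUnion]
    refine ⟨t, ?_, Finset.mem_filter.2 ⟨ha, fun p hp => (ht p hp).2.2.2⟩⟩
    rw [hTT, Finset.mem_filter, Finset.mem_powerset]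
    refine ⟨fun p hp => ?_, ht1, ht2⟩
    rw [hF, Finset.mem_filter]
    exact ⟨Nat.mem_primeFactors.2 ⟨(ht p hp).1, Int.natCast_dvd.1 (ht p hp).2.2.1, hM0⟩, (ht p hp).2.1⟩
  have h1 : (A.card : ℝ) ≤ ∑ t ∈ TT, ((A.filter fun a => ∀ p ∈ t, (p : ℤ) ∣ l.eval a).card : ℝ) := by
    exact_mod_cast (Finset.card_le_card hsub).trans Finset.card_biUnion_le
  have hsz : 0 < √z := Real.sqrt_pos.2 (by linarith)
  have hssz : 0 < √(√z) := Real.sqrt_pos.2 hsz
  have h2 : ∀ t ∈ TT, ((A.filter fun a => ∀ p ∈ t, (p : ℤ) ∣ l.eval a).card : ℝ) ≤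
      2 * R * (√(√z))⁻¹ * ∏ p ∈ t, (k * (√(p : ℝ))⁻¹) := by
    intro t ht
    rw [hTT, Finset.mem_filter, Finset.mem_powerset] at ht
    obtain ⟨htF, ht1, ht2⟩ := ht
    have h3 := count_t hl hd t (fun p hp => (hFp p (htF hp)).1)
      (A.filter fun a => ∀ p ∈ t, (p : ℤ) ∣ l.eval a) R hR0.le
      (fun a ha => (Finset.mem_filter.1 ha).2)
      (fun a ha b hb => hAR a (Finset.mem_filter.1 ha).1 b (Finset.mem_filter.1 hb).1)
    refine h3.trans ?_
    obtain ⟨g, hg⟩ : ∃ g : ℝ, g = ((∏ p ∈ t, p : ℕ) : ℝ) := ⟨_, rfl⟩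
    rw [← hg] at ht1 ht2 ⊢
    have hg0 : 0 < g := hsz.trans ht1
    have h4 : ∏ p ∈ t, ((k : ℝ) * (√(p : ℝ))⁻¹) = k ^ t.card * (√g)⁻¹ := by
      rw [Finset.prod_mul_distrib, Finset.prod_const, hg]
      congr 1
      push_cast
      rw [Finset.prod_inv_distrib]
      congr 1
      have h5 : ∀ s : Finset ℕ, ∏ p ∈ s, √(p : ℝ) = √(∏ p ∈ s, (p : ℝ)) := by
        intro s
        induction s using Finset.induction_on with
        | empty => simp
        | insert a s ha ih =>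
          rw [Finset.prod_insert ha, Finset.prod_insert ha, ih, Real.sqrt_mul (Nat.cast_nonneg a)]
      exact h5 t
    rw [h4]
    have hsg : 0 < √g := Real.sqrt_pos.2 hg0
    have h6 : R / g + 1 ≤ 2 * R * ((√(√z))⁻¹ * (√g)⁻¹) := by
      have h7 : 1 ≤ R / g := by
        rw [one_le_div hg0]
        linarith
      have h8 : g⁻¹ ≤ (√(√z))⁻¹ * (√g)⁻¹ := by
        rw [← mul_inv]
        apply inv_anti₀ (by positivity)
        calc √(√z) * √g ≤ √g * √g := by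
              apply mul_le_mul_of_nonneg_right _ hsg.le
              exact Real.sqrt_le_sqrt ht1.le
          _ = g := Real.mul_self_sqrt hg0.le
      have h9 : R / g + 1 ≤ 2 * R * g⁻¹ := by
        have h10 : 2 * R * g⁻¹ = R / g + R / g := by rw [div_eq_mul_inv]; ring
        linarith
      exact h9.trans (mul_le_mul_of_nonneg_left h8 (by positivity))
    calc (k : ℝ) ^ t.card * (R / g + 1) ≤ (k : ℝ) ^ t.card * (2 * R * ((√(√z))⁻¹ * (√g)⁻¹)) :=
          mul_le_mul_of_nonneg_left h6 (by positivity)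
      _ = 2 * R * (√(√z))⁻¹ * (k ^ t.card * (√g)⁻¹) := by ring
  refine h1.trans ((Finset.sum_le_sum h2).trans ?_)
  rw [← Finset.mul_sum]
  apply mul_le_mul_of_nonneg_left _ (by positivity)
  calc ∑ t ∈ TT, ∏ p ∈ t, ((k : ℝ) * (√(p : ℝ))⁻¹)
      ≤ ∑ t ∈ F.powerset, ∏ p ∈ t, ((k : ℝ) * (√(p : ℝ))⁻¹) := by
        apply Finset.sum_le_sum_of_subset_of_nonneg
        · rw [hTT]
          exact Finset.filter_subset _ _
        · intro t _ _
          exact Finset.prod_nonneg fun p _ => by positivity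
    _ = ∏ p ∈ F, (1 + (k : ℝ) * (√(p : ℝ))⁻¹) := (Finset.prod_one_add F).symm
    _ ≤ ∏ p ∈ F, Real.exp ((k : ℝ) * (√(p : ℝ))⁻¹) := by
        apply Finset.prod_le_prod
        · intro p _
          positivity
        · intro p _
          rw [add_comm]
          exact Real.add_one_le_exp _
    _ = Real.exp (∑ p ∈ F, (k : ℝ) * (√(p : ℝ))⁻¹) := (Real.exp_sum _ _).symm
    _ ≤ Real.exp (k * (Real.log |(M : ℝ)| / Real.log 2) / √P₀) := by
        rw [Real.exp_le_exp]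
        have hsP : 0 < √P₀ := Real.sqrt_pos.2 (by linarith)
        calc ∑ p ∈ F, (k : ℝ) * (√(p : ℝ))⁻¹ ≤ ∑ p ∈ F, (k : ℝ) * (√P₀)⁻¹ := by
              apply Finset.sum_le_sum
              intro p hp
              apply mul_le_mul_of_nonneg_left _ (Nat.cast_nonneg k)
              apply inv_anti₀ hsP
              exact Real.sqrt_le_sqrt (hFp p hp).2.le
          _ = k * F.card / √P₀ := by
              rw [Finset.sum_const, nsmul_eq_mul, div_eq_mul_inv]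
              ring
          _ ≤ _ := by gcongr

/-- a large common factor: a large prime, many small primes, or a rough divisor -/
theorem tri {d M : ℤ} {z P₀ : ℝ} {K : ℕ} (hd0 : d ≠ 0) (hsq : Squarefree d)
    (hP : 1 ≤ P₀) (hz : 1 ≤ z) (hPz : P₀ ^ K ≤ √z) (hg : z < (Int.gcd d M : ℝ)) :
    (∃ p : ℕ, p.Prime ∧ √z < p ∧ (p : ℤ) ∣ M ∧ (p : ℤ) ∣ d) ∨
      (K + 1 ≤ (d.natAbs.primeFactors.filter fun p : ℕ => (p : ℝ) ≤ P₀).card) ∨
      ∃ t : Finset ℕ, (∀ p ∈ t, p.Prime ∧ P₀ < p ∧ (p : ℤ) ∣ M ∧ (p : ℤ) ∣ d) ∧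
        √z < ((∏ p ∈ t, p : ℕ) : ℝ) ∧ ((∏ p ∈ t, p : ℕ) : ℝ) ≤ z := by
  classical
  by_contra hcon
  push Not at hcon
  obtain ⟨hbig, hK, hrough⟩ := hcon
  obtain ⟨g, hgg⟩ : ∃ g : ℕ, g = Int.gcd d M := ⟨_, rfl⟩
  rw [← hgg] at hg
  have hgd : (g : ℤ) ∣ d := by
    rw [hgg]
    exact Int.gcd_dvd_left ..
  have hgM : (g : ℤ) ∣ M := by
    rw [hgg]
    exact Int.gcd_dvd_right ..
  have hgn : g ∣ d.natAbs := Int.natCast_dvd.1 hgd
  have hsqg : Squarefree g := (Int.squarefree_natAbs.2 hsq).squarefree_of_dvd hgn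
  have hz0 : 0 < z := by linarith
  have hss : √z * √z = z := Real.mul_self_sqrt hz0.le
  have hsz0 : 0 < √z := Real.sqrt_pos.2 hz0
  obtain ⟨G, hG⟩ : ∃ G : Finset ℕ, G = g.primeFactors.filter fun p : ℕ => ¬ (p : ℝ) ≤ P₀ := ⟨_, rfl⟩
  have hGp : ∀ p ∈ G, p.Prime ∧ P₀ < p ∧ (p : ℤ) ∣ M ∧ (p : ℤ) ∣ d := by
    intro p hp
    rw [hG, Finset.mem_filter] at hp
    have hpp := Nat.prime_of_mem_primeFactors hp.1
    have hpg : (p : ℤ) ∣ (g : ℤ) := Int.natCast_dvd_natCast.2 (Nat.dvd_of_mem_primeFactors hp.1)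
    exact ⟨hpp, not_le.1 hp.2, hpg.trans hgM, hpg.trans hgd⟩
  -- the smooth part
  have hsm : ((∏ p ∈ g.primeFactors.filter (fun p : ℕ => (p : ℝ) ≤ P₀), p : ℕ) : ℝ) ≤ √z := by
    have hsub : (g.primeFactors.filter fun p : ℕ => (p : ℝ) ≤ P₀) ⊆
        d.natAbs.primeFactors.filter fun p : ℕ => (p : ℝ) ≤ P₀ := by
      intro p hp
      rw [Finset.mem_filter] at hp ⊢
      exact ⟨Nat.primeFactors_mono hgn (Int.natAbs_ne_zero.2 hd0) hp.1, hp.2⟩
    have h1 := Finset.card_le_card hsub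
    push_cast
    calc ∏ p ∈ g.primeFactors.filter (fun p : ℕ => (p : ℝ) ≤ P₀), (p : ℝ)
        ≤ ∏ _p ∈ g.primeFactors.filter (fun p : ℕ => (p : ℝ) ≤ P₀), P₀ :=
          Finset.prod_le_prod (fun p _ => Nat.cast_nonneg p)
            fun p hp => (Finset.mem_filter.1 hp).2
      _ = P₀ ^ (g.primeFactors.filter (fun p : ℕ => (p : ℝ) ≤ P₀)).card := by
          rw [Finset.prod_const]
      _ ≤ P₀ ^ K := pow_le_pow_right₀ hP (by omega)
      _ ≤ √z := hPz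
  have hprod : ((∏ p ∈ g.primeFactors.filter (fun p : ℕ => (p : ℝ) ≤ P₀), p : ℕ) : ℝ) *
      ((∏ p ∈ G, p : ℕ) : ℝ) = g := by
    rw [hG, ← Nat.cast_mul, Finset.prod_filter_mul_prod_filter_not,
      Nat.prod_primeFactors_of_squarefree hsqg]
  have hGbig : √z < ((∏ p ∈ G, p : ℕ) : ℝ) := by
    by_contra h
    push Not at h
    have h1 : (g : ℝ) ≤ √z * √z := by
      rw [← hprod]
      exact mul_le_mul hsm h (Nat.cast_nonneg _) hsz0.le
    rw [hss] at h1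
    linarith
  -- a least subset
  obtain ⟨t, ht⟩ : ∃ t, t ∈ (G.powerset.filter fun t => √z < ((∏ p ∈ t, p : ℕ) : ℝ)) ∧
      ∀ s ∈ (G.powerset.filter fun t => √z < ((∏ p ∈ t, p : ℕ) : ℝ)), t.card ≤ s.card := by
    apply Finset.exists_min_image
    exact ⟨G, Finset.mem_filter.2 ⟨Finset.mem_powerset.2 (Finset.Subset.refl _), hGbig⟩⟩
  obtain ⟨ht1, hmin⟩ := ht
  rw [Finset.mem_filter, Finset.mem_powerset] at ht1
  obtain ⟨htG, htb⟩ := ht1
  have h1 := hrough t (fun p hp => hGp p (htG hp)) htb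
  have hne : t.Nonempty := by
    rw [Finset.nonempty_iff_ne_empty]
    rintro rfl
    rw [Finset.prod_empty, Nat.cast_one] at htb
    have : 1 ≤ √z := Real.one_le_sqrt.2 hz
    linarith
  obtain ⟨p, hp⟩ := hne
  have h2 : ((∏ q ∈ t.erase p, q : ℕ) : ℝ) ≤ √z := by
    by_contra h
    push Not at h
    have h3 := hmin (t.erase p) (Finset.mem_filter.2 ⟨Finset.mem_powerset.2
      ((Finset.erase_subset _ _).trans htG), h⟩)
    have h4 := Finset.card_erase_lt_of_mem hp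
    omega
  obtain ⟨hpp, -, hpM, hpd⟩ := hGp p (htG hp)
  have h3 : (p : ℝ) ≤ √z := by
    by_contra h
    push Not at h
    exact hbig p hpp h hpM hpd
  have h4 : ((∏ q ∈ t, q : ℕ) : ℝ) ≤ √z * √z := by
    rw [← Finset.mul_prod_erase t (fun q => q) hp, Nat.cast_mul]
    exact mul_le_mul h3 h2 (Nat.cast_nonneg _) hsz0.le
  rw [hss] at h4
  linarith

end Pool.Agent.H45.PS
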