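import Pool.Agent.H45.PS.WINP
import Pool.Agent.H45.PF.BLKF

/-! Small norms in a window with a power saving, all parameters chosen. -/

set_option autoImplicit false

namespace Pool.Agent.H45.PS

open Polynomial Pool.Agent.Q276.PL Pool.Agent.H45.PF Pool.Agent.H45.NF Filter Topology

theorem polyexp (B a : ℝ) (n : ℕ) (ha : 0 < a) :
    ∀ᶠ l : ℝ in atTop, B * l ^ n ≤ Real.exp (a * l) := by
  have h1 := (tendsto_rpow_mul_exp_neg_mul_atTop_nhds_zero (n : ℝ) a ha).const_mul B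
  rw [mul_zero] at h1
  filter_upwards [h1.eventually_le_const one_pos] with l hl
  rw [Real.rpow_natCast] at hl
  have h2 : Real.exp (-a * l) * Real.exp (a * l) = 1 := by
    rw [← Real.exp_add]
    simp
  have h3 := mul_le_mul_of_nonneg_right hl (Real.exp_pos (a * l)).le
  calc B * l ^ n = (B * (l ^ n * Real.exp (-a * l))) * Real.exp (a * l) := by
        rw [mul_assoc, mul_assoc, h2, mul_one]
    _ ≤ 1 * Real.exp (a * l) := h3
    _ = Real.exp (a * l) := one_mul _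

theorem lin34 (B a : ℝ) (ha : 0 < a) : ∀ᶠ l : ℝ in atTop, B * l ^ ((3 : ℝ) / 4) ≤ a * l := by
  filter_upwards [(tendsto_rpow_atTop (by norm_num : (0 : ℝ) < 1 / 4)).eventually
    (eventually_ge_atTop (B / a)), eventually_gt_atTop 0] with l hl hl0
  have h1 : l = l ^ ((1 : ℝ) / 4) * l ^ ((3 : ℝ) / 4) := by
    rw [← Real.rpow_add hl0]
    norm_num
  have h2 : 0 < l ^ ((3 : ℝ) / 4) := Real.rpow_pos_of_pos hl0 _
  rw [div_le_iff₀ ha] at hl
  calc B * l ^ ((3 : ℝ) / 4) ≤ (l ^ ((1 : ℝ) / 4) * a) * l ^ ((3 : ℝ) / 4) :=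
        mul_le_mul_of_nonneg_right hl h2.le
    _ = a * (l ^ ((1 : ℝ) / 4) * l ^ ((3 : ℝ) / 4)) := by ring
    _ = a * l := by rw [← h1]

/-- the sum of the four terms -/
theorem params2 {C l w σ m k Y P : ℝ} (hC : 1 ≤ C) (hl : 1 ≤ l) (hσ1 : 1 ≤ σ) (hm1 : 1 ≤ m)
    (hw : w = l / (8 * m)) {z : ℝ} (hz : z = Real.exp (w / 8) / 2) (hw16 : 16 ≤ w)
    (h1 : 12 * σ * C * m ^ 6 * l ^ 4 ≤ Real.exp (1 / (64 * m) * l))
    (h2 : 84 * σ * C * m ^ 3 * l ^ 2 ≤ Real.exp (1 / (256 * m) * l))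
    (h3 : 288 * σ * l ^ 1 ≤ Real.exp (1 / (512 * m) * l))
    (h4 : C * m ^ 3 ≤ l ^ 4) (hP : P = l ^ 5)
    (h5 : (41 * k + 43) * l ^ ((3 : ℝ) / 4) ≤ 1 / (12800 * m) * l)
    (hY : Y ≤ Real.exp (-((w / 16 - 1) / 20)) * Real.exp (41 * k * l ^ ((3 : ℝ) / 4))) :
    (2 * σ * l + 1) * (C * Real.exp (w / 4) * Real.exp (w / 2) * (m ^ 2 * l) ^ 3 +
      (C * m ^ 3 * l * (2 * Real.exp w / √z + 1) + 4 * Real.exp w * (√(√z))⁻¹ *
        Real.exp (C * m ^ 3 * l / P))) + 4 * Real.exp w * Y ≤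
      Real.exp w * Real.exp (-(w / 400)) := by
  have hl0 : 0 < l := by linarith
  have hm0 : 0 < m := by linarith
  have hC0 : 0 < C := by linarith
  have hσ0 : 0 < σ := by linarith
  have e1 : 1 / (64 * m) * l = w / 8 := by rw [hw]; field_simp; norm_num
  have e2 : 1 / (256 * m) * l = w / 32 := by rw [hw]; field_simp; norm_num
  have e3 : 1 / (512 * m) * l = w / 64 := by rw [hw]; field_simp; norm_num
  have e5 : 1 / (12800 * m) * l = w / 1600 := by rw [hw]; field_simp; norm_num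
  rw [e1] at h1
  rw [e2] at h2
  rw [e3] at h3
  rw [e5] at h5
  rw [pow_one] at h3
  have hsig : 2 * σ * l + 1 ≤ 3 * σ * l := by nlinarith
  have hew : 0 < Real.exp w := Real.exp_pos w
  have hexp1 : 2.7 < Real.exp 1 := by have := Real.exp_one_gt_d9; linarith
  have hexp1' : Real.exp 1 < 2.72 := by have := Real.exp_one_lt_d9; linarith
  -- the square roots
  have hsz : Real.exp (w / 16 - 1) ≤ √z := by
    apply Real.le_sqrt_of_sq_le
    rw [hz, ← Real.exp_nat_mul]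
    push_cast
    have h6 : Real.exp (w / 8) = Real.exp (2 * (w / 16 - 1)) * Real.exp 2 := by
      rw [← Real.exp_add]
      congr 1
      ring
    have h7 : Real.exp 2 = Real.exp 1 * Real.exp 1 := by
      rw [← Real.exp_add]
      norm_num
    rw [h6, h7]
    have h8 : 0 < Real.exp (2 * (w / 16 - 1)) := Real.exp_pos _
    have h9 : 2 ≤ Real.exp 1 * Real.exp 1 := by nlinarith
    rw [le_div_iff₀ (by norm_num)]
    exact mul_le_mul_of_nonneg_left h9 h8.le
  have hsz0 : 0 < √z := lt_of_lt_of_le (Real.exp_pos _) hsz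
  have hssz : Real.exp (w / 32 - 1 / 2) ≤ √(√z) := by
    apply Real.le_sqrt_of_sq_le
    refine le_trans (le_of_eq ?_) hsz
    rw [← Real.exp_nat_mul]
    congr 1
    push_cast
    ring
  have hY0 := hY
  -- term 1
  have t1 : (2 * σ * l + 1) * (C * Real.exp (w / 4) * Real.exp (w / 2) * (m ^ 2 * l) ^ 3) ≤
      1 / 4 * (Real.exp w * Real.exp (-(w / 400))) := by
    have a1 : (2 * σ * l + 1) * (C * Real.exp (w / 4) * Real.exp (w / 2) * (m ^ 2 * l) ^ 3) ≤
        (3 * σ * l) * (C * Real.exp (w / 4) * Real.exp (w / 2) * (m ^ 2 * l) ^ 3) :=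
      mul_le_mul_of_nonneg_right hsig (by positivity)
    have a2 : (3 * σ * l) * (C * Real.exp (w / 4) * Real.exp (w / 2) * (m ^ 2 * l) ^ 3) =
        1 / 4 * (12 * σ * C * m ^ 6 * l ^ 4) * (Real.exp (w / 4) * Real.exp (w / 2)) := by ring
    have a3 : Real.exp (w / 8) * (Real.exp (w / 4) * Real.exp (w / 2)) ≤
        Real.exp w * Real.exp (-(w / 400)) := by
      rw [← Real.exp_add, ← Real.exp_add, ← Real.exp_add]
      exact Real.exp_le_exp.2 (by linarith)
    have a4 : 0 < Real.exp (w / 4) * Real.exp (w / 2) := by positivity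
    have a5 := mul_le_mul_of_nonneg_right h1 a4.le
    rw [a2] at a1
    linarith
  -- term 2
  have t2 : (2 * σ * l + 1) * (C * m ^ 3 * l * (2 * Real.exp w / √z + 1)) ≤
      1 / 4 * (Real.exp w * Real.exp (-(w / 400))) := by
    have a1 : 2 * Real.exp w / √z + 1 ≤ 7 * Real.exp (w - w / 16) := by
      have b1 : 2 * Real.exp w / √z ≤ 2 * Real.exp w / Real.exp (w / 16 - 1) :=
        div_le_div_of_nonneg_left (by positivity) (Real.exp_pos _) hsz
      have b2 : 2 * Real.exp w / Real.exp (w / 16 - 1) = 2 * Real.exp 1 * Real.exp (w - w / 16) := by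
        rw [div_eq_iff (Real.exp_pos _).ne', mul_assoc, mul_assoc, ← Real.exp_add, ← Real.exp_add]
        congr 2
        ring
      have b3 : 1 ≤ Real.exp (w - w / 16) := Real.one_le_exp (by linarith)
      have b4 : 2 * Real.exp 1 * Real.exp (w - w / 16) ≤ 6 * Real.exp (w - w / 16) :=
        mul_le_mul_of_nonneg_right (by linarith) (by linarith)
      linarith
    have a2 : (2 * σ * l + 1) * (C * m ^ 3 * l * (2 * Real.exp w / √z + 1)) ≤
        (3 * σ * l) * (C * m ^ 3 * l * (7 * Real.exp (w - w / 16))) := by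
      apply mul_le_mul hsig _ (by positivity) (by positivity)
      exact mul_le_mul_of_nonneg_left a1 (by positivity)
    have a3 : (3 * σ * l) * (C * m ^ 3 * l * (7 * Real.exp (w - w / 16))) =
        1 / 4 * (84 * σ * C * m ^ 3 * l ^ 2) * Real.exp (w - w / 16) := by ring
    have a4 : Real.exp (w / 32) * Real.exp (w - w / 16) ≤ Real.exp w * Real.exp (-(w / 400)) := by
      rw [← Real.exp_add, ← Real.exp_add]
      exact Real.exp_le_exp.2 (by linarith)
    have a5 := mul_le_mul_of_nonneg_right h2 (Real.exp_pos (w - w / 16)).le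
    rw [a3] at a2
    linarith
  -- term 3
  have t3 : (2 * σ * l + 1) * (4 * Real.exp w * (√(√z))⁻¹ * Real.exp (C * m ^ 3 * l / P)) ≤
      1 / 4 * (Real.exp w * Real.exp (-(w / 400))) := by
    have a1 : (√(√z))⁻¹ ≤ 2 * Real.exp (-(w / 32)) := by
      have b1 : (√(√z))⁻¹ ≤ (Real.exp (w / 32 - 1 / 2))⁻¹ := inv_anti₀ (Real.exp_pos _) hssz
      have b2 : (Real.exp (w / 32 - 1 / 2))⁻¹ = Real.exp (1 / 2) * Real.exp (-(w / 32)) := by
        rw [← Real.exp_neg, ← Real.exp_add]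
        congr 1
        ring
      have b3 : Real.exp (1 / 2) ≤ 2 := by
        have b4 : Real.exp (1 / 2) * Real.exp (1 / 2) = Real.exp 1 := by
          rw [← Real.exp_add]
          norm_num
        by_contra hcon
        push Not at hcon
        nlinarith
      rw [b2] at b1
      exact b1.trans (mul_le_mul_of_nonneg_right b3 (Real.exp_pos _).le)
    have a2 : Real.exp (C * m ^ 3 * l / P) ≤ 3 := by
      have b1 : C * m ^ 3 * l / P ≤ 1 := by
        rw [hP, div_le_one (by positivity)]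
        calc C * m ^ 3 * l ≤ l ^ 4 * l := mul_le_mul_of_nonneg_right h4 hl0.le
          _ = l ^ 5 := by ring
      have b2 := Real.exp_le_exp.2 b1
      linarith
    have hinv : 0 ≤ (√(√z))⁻¹ := by positivity
    have a3 : (2 * σ * l + 1) * (4 * Real.exp w * (√(√z))⁻¹ * Real.exp (C * m ^ 3 * l / P)) ≤
        (3 * σ * l) * (4 * Real.exp w * (2 * Real.exp (-(w / 32))) * 3) := by
      apply mul_le_mul hsig _ (by positivity) (by positivity)
      apply mul_le_mul _ a2 (Real.exp_pos _).le (by positivity)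
      exact mul_le_mul_of_nonneg_left a1 (by positivity)
    have a4 : (3 * σ * l) * (4 * Real.exp w * (2 * Real.exp (-(w / 32))) * 3) =
        1 / 4 * (288 * σ * l) * (Real.exp w * Real.exp (-(w / 32))) := by ring
    have a5 : Real.exp (w / 64) * (Real.exp w * Real.exp (-(w / 32))) ≤
        Real.exp w * Real.exp (-(w / 400)) := by
      rw [← Real.exp_add, ← Real.exp_add, ← Real.exp_add]
      exact Real.exp_le_exp.2 (by linarith)
    have a6 := mul_le_mul_of_nonneg_right h3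
      (by positivity : 0 ≤ Real.exp w * Real.exp (-(w / 32)))
    rw [a4] at a3
    linarith
  -- term 4
  have t4 : 4 * Real.exp w * Y ≤ 1 / 4 * (Real.exp w * Real.exp (-(w / 400))) := by
    have hl34 : 1 ≤ l ^ ((3 : ℝ) / 4) := Real.one_le_rpow hl (by norm_num)
    have a1 : 16 * Y ≤ Real.exp (-(w / 400)) := by
      have b1 : (16 : ℝ) ≤ Real.exp 3 := by
        have b2 : Real.exp 3 = Real.exp 1 * Real.exp 1 * Real.exp 1 := by
          rw [← Real.exp_add, ← Real.exp_add]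
          norm_num
        rw [b2]
        have b3 : 7 ≤ Real.exp 1 * Real.exp 1 := by nlinarith
        nlinarith
      have b2 : 0 < Real.exp (-((w / 16 - 1) / 20)) * Real.exp (41 * k * l ^ ((3 : ℝ) / 4)) := by
        positivity
      calc 16 * Y ≤ 16 * (Real.exp (-((w / 16 - 1) / 20)) *
            Real.exp (41 * k * l ^ ((3 : ℝ) / 4))) := by linarith
        _ ≤ Real.exp 3 * (Real.exp (-((w / 16 - 1) / 20)) *
            Real.exp (41 * k * l ^ ((3 : ℝ) / 4))) := mul_le_mul_of_nonneg_right b1 b2.le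
        _ = Real.exp (3 + (-((w / 16 - 1) / 20) + 41 * k * l ^ ((3 : ℝ) / 4))) := by
            rw [Real.exp_add, Real.exp_add]
        _ ≤ Real.exp (-(w / 400)) := by
            apply Real.exp_le_exp.2
            nlinarith
    have a2 := mul_le_mul_of_nonneg_left a1 hew.le
    linarith
  linarith

theorem blkp (k : ℕ) (ε : ℝ) (hε : 0 < ε) (hε1 : ε ≤ 1) : ∃ c : ℝ, 0 < c ∧ c ≤ 1 ∧
    ∀ σ : ℝ, 1 ≤ σ → ∃ D₁ : ℝ, 1 ≤ D₁ ∧ ∀ D : ℝ, D₁ ≤ D → ∃ L : ℝ, 1 ≤ L ∧
      L ≤ D ^ (ε / (32 * σ ^ 2)) ∧ ∀ (S : ℝ) (P : ℤ[X]), Near k ε D S P →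
      (∀ τ : ℤ, |(τ : ℝ)| ≤ L → D ≤ ((P.eval τ : ℤ) : ℝ)) →
      ((WinZ P L (D ^ (c / σ ^ 2)) (D ^ σ)).ncard : ℝ) ≤ L * D ^ (-(c / σ ^ 2)) := by
  obtain ⟨C, hC, hCε, hW⟩ := winp k ε hε hε1
  refine ⟨1 / (32000 * C), by positivity, ?_, ?_⟩
  · rw [div_le_one (by positivity)]
    linarith
  intro σ hσ1
  have hs1 : 1 ≤ σ ^ 2 := one_le_pow₀ hσ1
  obtain ⟨m, hm⟩ : ∃ m : ℕ, m = ⌈C * (2 * σ + 1) ^ 2⌉₊ := ⟨_, rfl⟩
  have hmlo : C * (2 * σ + 1) ^ 2 ≤ m := by rw [hm]; exact Nat.le_ceil _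
  have hs9 : (2 * σ + 1) ^ 2 ≤ 9 * σ ^ 2 := by nlinarith
  have hs9' : 9 ≤ (2 * σ + 1) ^ 2 := by nlinarith
  have hCs : σ ^ 2 ≤ C * σ ^ 2 := le_mul_of_one_le_left (by positivity) hC
  have hmhi : (m : ℝ) ≤ 10 * C * σ ^ 2 := by
    have h6 : (m : ℝ) < C * (2 * σ + 1) ^ 2 + 1 := by
      rw [hm]
      exact Nat.ceil_lt_add_one (by positivity)
    have h7 : C * (2 * σ + 1) ^ 2 ≤ C * (9 * σ ^ 2) := mul_le_mul_of_nonneg_left hs9 (by linarith)
    linarith
  have hmC : 9 * C ≤ m := by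
    have h7 : C * 9 ≤ C * (2 * σ + 1) ^ 2 := mul_le_mul_of_nonneg_left hs9' (by linarith)
    linarith
  have hm1 : (1 : ℝ) ≤ m := by linarith
  have hm0 : (0 : ℝ) < m := by linarith
  obtain ⟨D₁, hD₁⟩ := Filter.eventually_atTop.1
    (((Real.tendsto_log_atTop.eventually (eventually_ge_atTop (C * m + 128 * m + C * m ^ 3 + 3))).and
      (eventually_ge_atTop C)).and
      (Real.tendsto_log_atTop.eventually
        ((polyexp (12 * σ * C * m ^ 6) (1 / (64 * m)) 4 (by positivity)).and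
        ((polyexp (84 * σ * C * m ^ 3) (1 / (256 * m)) 2 (by positivity)).and
        ((polyexp (288 * σ) (1 / (512 * m)) 1 (by positivity)).and
        (lin34 (41 * k + 43) (1 / (12800 * m)) (by positivity)))))))
  refine ⟨max 1 D₁, le_max_left _ _, fun D hD => ?_⟩
  obtain ⟨⟨hl5, hDC⟩, h1, h2, h3, h5⟩ := hD₁ D ((le_max_right _ _).trans hD)
  have hD1 : 1 ≤ D := (le_max_left _ _).trans hD
  have hD0 : 0 < D := by linarith
  obtain ⟨l, hl⟩ : ∃ l, l = Real.log D := ⟨_, rfl⟩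
  rw [← hl] at hl5 h1 h2 h3 h5
  have hCm0 : 0 ≤ C * m := by positivity
  have hCm30 : 0 ≤ C * (m : ℝ) ^ 3 := by positivity
  have hl3 : 3 ≤ l := by linarith
  have hl1 : 1 ≤ l := by linarith
  have hl0 : 0 < l := by linarith
  have hCm : C * m ≤ l := by linarith
  have h4 : C * (m : ℝ) ^ 3 ≤ l ^ 4 := by
    have h6 : l ≤ l ^ 4 := by
      calc l = l ^ 1 := (pow_one l).symm
        _ ≤ l ^ 4 := pow_le_pow_right₀ hl1 (by norm_num)
    linarith
  have hDl : D = Real.exp l := by rw [hl, Real.exp_log hD0]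
  obtain ⟨w, hw⟩ : ∃ w, w = l / (8 * m) := ⟨_, rfl⟩
  have hwσ : l / (80 * C * σ ^ 2) ≤ w := by
    rw [hw]
    apply div_le_div_of_nonneg_left hl0.le (by positivity)
    linarith
  have hw0 : 0 < w := by rw [hw]; positivity
  have hwl : w ≤ l / 8 := by
    rw [hw]
    apply div_le_div_of_nonneg_left hl0.le (by norm_num)
    linarith
  have hw16 : 16 ≤ w := by
    rw [hw, le_div_iff₀ (by positivity)]
    linarith
  have h5w : (41 * (k : ℝ) + 43) * l ^ ((3 : ℝ) / 4) ≤ w / 1600 := by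
    refine h5.trans (le_of_eq ?_)
    rw [hw]
    field_simp
    norm_num
  have hk0 : (0 : ℝ) ≤ k := Nat.cast_nonneg k
  have hq : 1 ≤ l ^ ((1 : ℝ) / 4) := Real.one_le_rpow hl1 (by norm_num)
  have hqs : l ^ ((1 : ℝ) / 2) = l ^ ((1 : ℝ) / 4) * l ^ ((1 : ℝ) / 4) := by
    rw [← Real.rpow_add hl0]
    norm_num
  have hqt : l ^ ((3 : ℝ) / 4) = l ^ ((1 : ℝ) / 2) * l ^ ((1 : ℝ) / 4) := by
    rw [← Real.rpow_add hl0]
    norm_num
  have hs : 1 ≤ l ^ ((1 : ℝ) / 2) := Real.one_le_rpow hl1 (by norm_num)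
  have hst : l ^ ((1 : ℝ) / 2) ≤ l ^ ((3 : ℝ) / 4) := by rw [hqt]; nlinarith
  have hqt' : l ^ ((1 : ℝ) / 4) ≤ l ^ ((3 : ℝ) / 4) := by rw [hqt]; nlinarith
  have ht1 : 1 ≤ l ^ ((3 : ℝ) / 4) := by linarith
  obtain ⟨g, hg⟩ : ∃ g, g = Real.log l := ⟨_, rfl⟩
  have hg1 : 1 ≤ g := by
    rw [hg, Real.le_log_iff_exp_le hl0]
    have := Real.exp_one_lt_d9
    linarith
  have hgq : g ≤ 4 * l ^ ((1 : ℝ) / 4) := by
    have h6 := Real.log_le_rpow_div hl0.le (by norm_num : (0 : ℝ) < 1 / 4)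
    rw [hg]
    linarith
  have hg0 : 0 < g := by linarith
  obtain ⟨K, hK⟩ : ∃ K : ℕ, K = ⌊(w / 16 - 1) / (10 * g)⌋₊ := ⟨_, rfl⟩
  have hw8 : 0 ≤ w / 16 - 1 := by linarith
  have hK1 : (K : ℝ) * (10 * g) ≤ w / 16 - 1 := by
    rw [← le_div_iff₀ (by positivity), hK]
    exact Nat.floor_le (by positivity)
  have hK2 : (w / 16 - 1) / (10 * g) ≤ ((K + 1 : ℕ) : ℝ) := by
    rw [hK]
    push_cast
    exact (Nat.lt_floor_add_one _).le
  have hL : D ^ (1 / (8 * (m : ℝ))) = Real.exp w := by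
    rw [Real.rpow_def_of_pos hD0, ← hl, hw]
    congr 1
    ring
  have hL2 : D ^ (1 / (16 * (m : ℝ))) = Real.exp (w / 2) := by
    rw [Real.rpow_def_of_pos hD0, ← hl, hw]
    congr 1
    field_simp
    norm_num
  have hP : ∀ j : ℕ, (l ^ 10) ^ j = Real.exp ((j : ℝ) * (10 * g)) := by
    intro j
    have h6 : l ^ 10 = Real.exp (10 * g) := by
      rw [hg, show (10 : ℝ) = ((10 : ℕ) : ℝ) by norm_num, ← Real.log_pow,
        Real.exp_log (by positivity)]
    rw [h6, ← Real.exp_nat_mul]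
  have hsP : √(l ^ 10) = l ^ 5 := by
    rw [show l ^ 10 = (l ^ 5) ^ 2 by ring]
    exact Real.sqrt_sq (by positivity)
  have hlogP : Real.log (l ^ 10) = 10 * g := by
    rw [Real.log_pow, ← hg]
    norm_num
  -- the square root of z
  have hsz : Real.exp (w / 16 - 1) ≤ √(Real.exp (w / 8) / 2) := by
    apply Real.le_sqrt_of_sq_le
    rw [← Real.exp_nat_mul]
    push_cast
    have h6 : Real.exp (w / 8) = Real.exp (2 * (w / 16 - 1)) * Real.exp 2 := by
      rw [← Real.exp_add]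
      congr 1
      ring
    have h7 := Real.add_one_le_exp (2 : ℝ)
    rw [h6, le_div_iff₀ (by norm_num)]
    have h8 : 0 < Real.exp (2 * (w / 16 - 1)) := Real.exp_pos _
    exact mul_le_mul_of_nonneg_left (by linarith) h8.le
  refine ⟨Real.exp w, Real.one_le_exp hw0.le, ?_, ?_⟩
  · rw [← hL]
    apply Real.rpow_le_rpow_of_exponent_le hD1
    have h6 : 1 / ε * (4 * σ ^ 2) ≤ m := by
      calc 1 / ε * (4 * σ ^ 2) ≤ C * (4 * σ ^ 2) := mul_le_mul_of_nonneg_right hCε (by positivity)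
        _ ≤ C * (2 * σ + 1) ^ 2 := mul_le_mul_of_nonneg_left (by nlinarith) (by linarith)
        _ ≤ m := hmlo
    rw [div_mul_eq_mul_div, one_mul, div_le_iff₀ hε] at h6
    rw [div_le_div_iff₀ (by positivity) (by positivity)]
    linarith
  intro S P hN hlD
  have hT := hW D σ (Real.exp (w / 8) / 2) (Real.exp (w / 4)) (l ^ 10) (l ^ ((1 : ℝ) / 2)) S
    (Real.exp w) m K P hDC (by linarith) hmlo
    (by rw [← hl]; exact hCm)
    (by
      have h6 := Real.add_one_le_exp (w / 8)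
      linarith)
    (by
      have h6 : Real.exp (w / 4) = Real.exp (w / 8) * Real.exp (w / 8) := by
        rw [← Real.exp_add]
        congr 1
        ring
      rw [h6]
      apply le_of_eq
      ring)
    (by
      rw [Real.rpow_def_of_pos hD0, ← hl]
      exact Real.exp_le_exp.2 (by linarith))
    (one_le_pow₀ hl1)
    (by
      rw [hP]
      exact (Real.exp_le_exp.2 hK1).trans hsz) hL.symm
    (by
      rw [hP]
      have h6 : Real.exp (((K + 1 : ℕ) : ℝ) * (10 * g)) ≤ Real.exp w := by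
        apply Real.exp_le_exp.2
        push_cast
        nlinarith
      have := Real.exp_pos w
      linarith)
    (by
      have h6 : Real.exp (w / 8) ≤ Real.exp w := Real.exp_le_exp.2 (by linarith)
      have := Real.exp_pos w
      linarith)
    hs hN hlD
  rw [hL2, ← hl, hsP, hlogP] at hT
  have hY : ((l ^ ((1 : ℝ) / 2)) ^ (K + 1))⁻¹ *
      Real.exp (l ^ ((1 : ℝ) / 2) * k * (1 + 10 * g)) ≤
      Real.exp (-((w / 16 - 1) / 20)) * Real.exp (41 * k * l ^ ((3 : ℝ) / 4)) := by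
    apply mul_le_mul _ _ (Real.exp_pos _).le (Real.exp_pos _).le
    · rw [Real.exp_neg]
      apply inv_anti₀ (Real.exp_pos _)
      have h6 : (l ^ ((1 : ℝ) / 2)) ^ (K + 1) = Real.exp (((K + 1 : ℕ) : ℝ) * (g / 2)) := by
        rw [Real.exp_nat_mul]
        congr 1
        rw [Real.rpow_def_of_pos hl0, ← hg]
        congr 1
        ring
      rw [h6]
      apply Real.exp_le_exp.2
      rw [div_le_iff₀ (by positivity)] at hK2
      linarith
    · apply Real.exp_le_exp.2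
      have h6 : l ^ ((1 : ℝ) / 2) * (1 + 10 * g) ≤ 41 * l ^ ((3 : ℝ) / 4) := by
        calc l ^ ((1 : ℝ) / 2) * (1 + 10 * g) ≤
            l ^ ((1 : ℝ) / 2) * (1 + 10 * (4 * l ^ ((1 : ℝ) / 4))) := by gcongr
          _ = l ^ ((1 : ℝ) / 2) + 40 * l ^ ((3 : ℝ) / 4) := by rw [hqt]; ring
          _ ≤ 41 * l ^ ((3 : ℝ) / 4) := by linarith
      calc l ^ ((1 : ℝ) / 2) * k * (1 + 10 * g) = k * (l ^ ((1 : ℝ) / 2) * (1 + 10 * g)) := by ring
        _ ≤ k * (41 * l ^ ((3 : ℝ) / 4)) := mul_le_mul_of_nonneg_left h6 hk0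
        _ = 41 * k * l ^ ((3 : ℝ) / 4) := by ring
  have hpar := params2 (C := C) (l := l) (w := w) (σ := σ) (m := m) (k := k)
    (z := Real.exp (w / 8) / 2) (P := l ^ 5) hC hl1 hσ1 hm1 hw rfl hw16 h1 h2 h3 h4 rfl h5 hY
  have hcw : l * (1 / (32000 * C) / σ ^ 2) ≤ w / 400 := by
    have h6 : l * (1 / (32000 * C) / σ ^ 2) = l / (80 * C * σ ^ 2) / 400 := by
      field_simp
      norm_num
    rw [h6]
    linarith
  have hsub : (WinZ P (Real.exp w) (D ^ (1 / (32000 * C) / σ ^ 2)) (D ^ σ)).ncard ≤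
      (WinZ P (Real.exp w) (Real.exp (w / 4)) (D ^ σ)).ncard := by
    apply Set.ncard_le_ncard _ (winZ_finite _ _ _ _)
    rintro τ ⟨h7, h8, x, y, h9, h10, h11⟩
    refine ⟨h7, h8, x, y, h9, h10.trans ?_, h11⟩
    rw [Real.rpow_def_of_pos hD0, ← hl]
    apply Real.exp_le_exp.2
    linarith
  have hsub' : ((WinZ P (Real.exp w) (D ^ (1 / (32000 * C) / σ ^ 2)) (D ^ σ)).ncard : ℝ) ≤
      (WinZ P (Real.exp w) (Real.exp (w / 4)) (D ^ σ)).ncard := by exact_mod_cast hsub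
  refine hsub'.trans (hT.trans (le_trans (le_of_eq ?_) (hpar.trans ?_)))
  · ring
  · apply mul_le_mul_of_nonneg_left _ (Real.exp_pos _).le
    rw [Real.rpow_def_of_pos hD0, ← hl]
    apply Real.exp_le_exp.2
    linarith

end Pool.Agent.H45.PS
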